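import Mathlib
import Pool.Agent.H931R3.Bal15

/-! Tiles, words and the computable checks for the second gap of series-parallel posets. -/

namespace Pool.Agent.X211.SPG

/-- the three kinds of blocks: one element, the three-element poset, the seven-element poset -/
inductive Tile
  | a | b | c
  deriving DecidableEq

/-- number of elements of a block -/
def tl : Tile → ℕ
  | .a => 1
  | .b => 3
  | .c => 7

/-- rank distributions (with total weight 21) of the elements of a block -/
def tw : Tile → List (List ℕ)
  | .a => [[21]]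
  | .b => [[14, 7, 0], [7, 7, 7], [0, 7, 14]]
  | .c => [[12, 7, 2, 0, 0, 0, 0], [6, 6, 6, 3, 0, 0, 0], [0, 5, 10, 6, 0, 0, 0],
      [3, 3, 3, 3, 3, 3, 3], [0, 0, 0, 6, 10, 5, 0], [0, 0, 0, 3, 6, 6, 6],
      [0, 0, 0, 0, 2, 7, 12]]

/-- number of elements of a word -/
def len : List Tile → ℕ
  | [] => 0
  | t :: w => tl t + len w

/-- elements of a word: starting rank of the block and rank distribution in the block -/
def codes : ℕ → List Tile → List (ℕ × List ℕ)
  | _, [] => []
  | s, t :: w => (tw t).map (fun l => (s, l)) ++ codes (s + tl t) w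

/-- forced evaluation of a natural number -/
def frc {α : Type} (n : ℕ) (f : ℕ → α) : α :=
  match n with
  | 0 => f 0
  | k + 1 => f (k + 1)

lemma frc_eq {α : Type} (n : ℕ) (f : ℕ → α) : frc n f = f n := by cases n <;> rfl

/-- forced evaluation of a truth value -/
def frcB {α : Type} (b : Bool) (f : Bool → α) : α :=
  match b with
  | true => f true
  | false => f false

lemma frcB_eq {α : Type} (b : Bool) (f : Bool → α) : frcB b f = f b := by cases b <;> rfl

/-- the row of tail counts -/
def rowK (j b : ℕ) : ℕ → ℕ → ℕ → ℕ → List ℕ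
  | 0, _, _, _ => []
  | c + 1, k, d, kk =>
    frc (kk - d) fun kk' =>
      frc (d * ((k + 1 + j) * (c + 1)) / ((k + 1) * (c + 1 + b))) fun d' =>
        kk' :: rowK j b c (k + 1) d' kk'

/-- `w * x + y` for lists -/
def axpy (w : ℕ) : List ℕ → List ℕ → List ℕ
  | x :: xs, y :: ys => frc (w * x + y) fun v => v :: axpy w xs ys
  | _, _ => []

/-- weighted combination of rows -/
def comb (z : List ℕ) : List ℕ → List (List ℕ) → List ℕ
  | w :: ws, r :: rs => bif Nat.beq w 0 then comb z ws rs else axpy w r (comb z ws rs)
  | _, _ => z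

/-- scalar product -/
def dot : List ℕ → List ℕ → ℕ
  | w :: ws, x :: xs => w * x + dot ws xs
  | _, _ => 0

/-- balance test -/
def balb (T v : ℕ) : Bool := Nat.ble (42 * T) (5 * v) && Nat.ble (5 * v) (63 * T)

/-- no element of the block at the current position is balanced against one of the rows -/
def bad (T : ℕ) (t : Tile) (Ls : List (List ℕ)) : Bool :=
  !(Ls.any fun L => (tw t).any fun ws => frc (dot ws L) fun v => balb T v)

/-- positions which are ends of words without balanced elements -/
def loopF (T : ℕ) : ℕ → List (List ℕ) → Bool → Bool → Bool → Bool → Bool → Bool → Bool → Bool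
  | 0, _, r0, _, _, _, _, _, _ => r0
  | c + 1, Ls, r0, r1, r2, r3, r4, r5, r6 =>
    bif r0 then
      frcB (r1 || bad T .a Ls) fun q1 =>
      frcB (r3 || (Nat.ble 2 c && bad T .b Ls)) fun q3 =>
      frcB (Nat.ble 6 c && bad T .c Ls) fun q7 =>
        loopF T c (Ls.map List.tail) q1 r2 q3 r4 r5 r6 q7
    else
      loopF T c (Ls.map List.tail) r1 r2 r3 r4 r5 r6 false

/-- total count -/
def tot (n m : ℕ) : ℕ := Pool.Agent.H931R3.Bal.ch (n + m) m

/-- all rows -/
def rowsK (n C : ℕ) : ℕ → ℕ → List (List ℕ)
  | 0, _ => []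
  | c + 1, j => (frc (Pool.Agent.H931R3.Bal.ch (n + c) c) fun d => rowK j c n 0 d C) ::
      rowsK n C c (j + 1)

/-- forced evaluation of a list -/
def frcL {α : Type} : List ℕ → (List ℕ → α) → α
  | [], f => f []
  | x :: xs, f => frc x fun v => frcL xs fun vs => f (v :: vs)

/-- the row of an element is good: every word has a balanced element -/
def univ1 (n T : ℕ) (ws : List ℕ) (Ks : List (List ℕ)) : Bool :=
  frcL (comb (List.replicate n 0) ws Ks) fun L =>
    !(loopF T n [L] true false false false false false false)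

/-- some element of the block is good -/
def tileOK (n m T : ℕ) (Ks : List (List ℕ)) (s : ℕ) (t : Tile) : Bool :=
  Nat.ble (m + 1) (s + tl t) || (tw t).any fun ws => univ1 n T ws (Ks.drop s)

/-- all blocks covering `r` are good -/
def okr (n m T : ℕ) (Ks : List (List ℕ)) (r : ℕ) : Bool :=
  tileOK n m T Ks r .a &&
  (List.range 3).all (fun i => Nat.ble (r + 1) i || tileOK n m T Ks (r - i) .b) &&
  (List.range 7).all (fun i => Nat.ble (r + 1) i || tileOK n m T Ks (r - i) .c)

/-- check for one pair of sizes -/
def okR (n m : ℕ) : Bool :=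
  frc (tot n m) fun C => frc (21 * C) fun T => (fun Ks =>
    [(m - 1) / 2, 0, 1, 3, 4, 2].any fun r => Nat.ble (r + 1) m && okr n m T Ks r)
      (rowsK n C m 0)

end Pool.Agent.X211.SPG
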