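import Mathlib
import Pool.Agent.X211.SPG.G1

/-! Kernel computations. -/

namespace Pool.Agent.X211.SPG

/-- words with a given number of elements -/
def wlF : ℕ → ℕ → List (List Tile)
  | _, 0 => [[]]
  | 0, _ + 1 => []
  | f + 1, m + 1 => (wlF f m).map (List.cons .a) ++
      (bif Nat.ble 2 m then (wlF f (m - 2)).map (List.cons .b) else []) ++
      (bif Nat.ble 6 m then (wlF f (m - 6)).map (List.cons .c) else [])

/-- forced evaluation of a list of lists -/
def frcLL {α : Type} : List (List ℕ) → (List (List ℕ) → α) → α
  | [], f => f []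
  | x :: xs, f => frcL x fun v => frcLL xs fun vs => f (v :: vs)

/-- every word has a balanced element against some element of the word `v` -/
def jointOK (n T : ℕ) (Ks : List (List ℕ)) (v : List Tile) : Bool :=
  frcLL ((codes 0 v).map fun cd => comb (List.replicate n 0) cd.2 (Ks.drop cd.1)) fun Ls =>
    !(loopF T n Ls true false false false false false false)

/-- check of all pairs of words -/
def okW (n m : ℕ) : Bool :=
  frc (tot n m) fun C => frc (21 * C) fun T => (fun Ks =>
    (wlF m m).all fun v => jointOK n T Ks v) (rowsK n C m 0)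

/-- the exceptional pairs of sizes -/
def exc : List (ℕ × ℕ) := [(4, 2), (6, 3), (6, 4), (7, 5), (8, 4), (8, 5), (10, 5), (10, 7),
  (11, 7), (12, 6), (12, 8), (13, 8), (13, 9), (14, 7), (16, 8), (16, 11), (18, 9), (19, 13),
  (20, 10)]

set_option maxRecDepth 100000 in
lemma checkW : (exc.all fun p => okW p.1 p.2) = true := by
  decide +kernel

end Pool.Agent.X211.SPG
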