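import Mathlib
import Pool.Agent.X211.SPG.G1

/-! Correctness of the computable checks. -/

namespace Pool.Agent.X211.SPG

open Pool.Agent.H931R3.Bal

/-- weighted sum of the values of a function at consecutive places -/
def dotF : List ℕ → (ℕ → ℕ) → ℕ → ℕ
  | [], _, _ => 0
  | w :: ws, f, s => w * f s + dotF ws f (s + 1)

lemma tw_length : ∀ t, ∀ ws ∈ tw t, ws.length = tl t := by
  intro t ws h
  cases t <;> simp [tw, tl] at h ⊢ <;> aesop

lemma tw_sum : ∀ t, ∀ ws ∈ tw t, ws.sum = 21 := by
  intro t ws h
  cases t <;> simp [tw] at h <;> aesop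

lemma D_rel' {n m j k : ℕ} (hk : k < n) :
    D n m j (k + 1) * ((k + 1) * (n - k + (m - 1 - j))) =
      D n m j k * ((k + 1 + j) * (n - k)) := by
  unfold D
  have h1 := Nat.choose_mul_succ_eq (k + j) j
  rw [show k + j + 1 - j = k + 1 by omega] at h1
  have h2 := Nat.choose_mul_succ_eq (n - (k + 1) + (m - 1 - j)) (m - 1 - j)
  rw [show n - (k + 1) + (m - 1 - j) + 1 - (m - 1 - j) = n - k by omega,
    show n - (k + 1) + (m - 1 - j) + 1 = n - k + (m - 1 - j) by omega] at h2
  rw [show k + 1 + j = k + j + 1 by ring]
  calc (k + j + 1).choose j * (n - (k + 1) + (m - 1 - j)).choose (m - 1 - j) *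
      ((k + 1) * (n - k + (m - 1 - j))) =
      ((k + j + 1).choose j * (k + 1)) *
        ((n - (k + 1) + (m - 1 - j)).choose (m - 1 - j) * (n - k + (m - 1 - j))) := by ring
    _ = ((k + j).choose j * (k + j + 1)) *
        ((n - k + (m - 1 - j)).choose (m - 1 - j) * (n - k)) := by rw [h1, h2]
    _ = _ := by ring

lemma D_ratio {n m j k c : ℕ} (hk : k + (c + 1) = n) :
    D n m j (k + 1) =
      D n m j k * ((k + 1 + j) * (c + 1)) / ((k + 1) * (c + 1 + (m - 1 - j))) := by
  have h := D_rel' (n := n) (m := m) (j := j) (k := k) (by omega)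
  rw [show n - k = c + 1 by omega] at h
  rw [← h, Nat.mul_div_cancel]
  positivity

lemma rowK_eq {n m j : ℕ} (hj : j < m) : ∀ c k, k + c = n →
    rowK j (m - 1 - j) c k (D n m j k) (Kf n m j k) =
      (List.range' k c).map (fun i => Kf n m j (i + 1)) := by
  intro c
  induction c with
  | zero => intro k _; simp [rowK]
  | succ c ih =>
    intro k hk
    rw [rowK, frc_eq, frc_eq, ← D_ratio hk, List.range'_succ, List.map_cons]
    have h1 : Kf n m j k - D n m j k = Kf n m j (k + 1) := by
      have := Kf_step (n := n) hj (show k ≤ n by omega)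
      omega
    rw [h1, ih (k + 1) (by omega)]

lemma rowsK_eq {n m : ℕ} : ∀ c j, j + c = m →
    rowsK n ((n + m).choose m) c j =
      (List.range' j c).map (fun j => (List.range' 0 n).map (fun i => Kf n m j (i + 1))) := by
  intro c
  induction c with
  | zero => intro j _; simp [rowsK]
  | succ c ih =>
    intro j hj
    rw [rowsK, frc_eq, List.range'_succ, List.map_cons, ih (j + 1) (by omega)]
    congr 1
    have h := rowK_eq (n := n) (m := m) (j := j) (by omega) n 0 (by omega)
    rw [Kf_zero (by omega)] at h
    rw [← h, ch_eq]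
    have e1 : m - 1 - j = c := by omega
    have e2 : D n m j 0 = (n + c).choose c := by
      unfold D
      rw [e1]
      simp
    rw [e1, e2]

lemma axpy_eq (w : ℕ) (f g : ℕ → ℕ) : ∀ l : List ℕ,
    axpy w (l.map f) (l.map g) = l.map (fun i => w * f i + g i) := by
  intro l
  induction l with
  | nil => simp [axpy]
  | cons x l ih => simp [axpy, frc_eq, ih]

lemma comb_eq {n : ℕ} (K : ℕ → ℕ → ℕ) : ∀ (ws : List ℕ) (s c : ℕ), ws.length ≤ c →
    comb (List.replicate n 0) ws
      ((List.range' s c).map (fun j => (List.range' 0 n).map (fun i => K j i))) =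
      (List.range' 0 n).map (fun i => dotF ws (fun j => K j i) s) := by
  intro ws
  induction ws with
  | nil =>
    intro s c _
    have : comb (List.replicate n 0) []
      ((List.range' s c).map (fun j => (List.range' 0 n).map (fun i => K j i))) =
        List.replicate n 0 := by
      cases c <;> simp [comb]
    rw [this]
    simp [dotF, List.map_const']
  | cons w ws ih =>
    intro s c hc
    simp only [List.length_cons] at hc
    obtain ⟨c, rfl⟩ : ∃ c', c = c' + 1 := ⟨c - 1, by omega⟩
    rw [List.range'_succ, List.map_cons, comb, ih (s + 1) c (by omega)]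
    cases hw : Nat.beq w 0
    · rw [cond_false, axpy_eq]
      rfl
    · have : w = 0 := Nat.eq_of_beq_eq_true hw
      subst this
      rw [cond_true]
      simp [dotF]

lemma dot_eq (g : ℕ → ℕ) : ∀ (ws : List ℕ) (s c : ℕ), ws.length ≤ c →
    dot ws ((List.range' s c).map g) = dotF ws g s := by
  intro ws
  induction ws with
  | nil => intro s c _; simp [dot, dotF]
  | cons w ws ih =>
    intro s c hc
    simp only [List.length_cons] at hc
    obtain ⟨c, rfl⟩ : ∃ c', c = c' + 1 := ⟨c - 1, by omega⟩
    rw [List.range'_succ, List.map_cons, dot, ih (s + 1) c (by omega), dotF]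

/-- some element of the word is balanced against one of the rows -/
def Bal1 (T : ℕ) (gs : List (ℕ → ℕ)) (s : ℕ) (w : List Tile) : Prop :=
  ∃ cd ∈ codes s w, ∃ g ∈ gs, balb T (dotF cd.2 g cd.1) = true

lemma bad_false {T c s : ℕ} {t : Tile} {gs : List (ℕ → ℕ)} (hc : tl t ≤ c)
    (h : bad T t (gs.map fun g => (List.range' s c).map g) = false) :
    ∃ ws ∈ tw t, ∃ g ∈ gs, balb T (dotF ws g s) = true := by
  unfold bad at h
  simp only [Bool.not_eq_false', List.any_eq_true, List.mem_map, exists_exists_and_eq_and,
    frc_eq] at h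
  obtain ⟨g, hg, ws, hws, h⟩ := h
  rw [dot_eq g ws s c (by rw [tw_length t ws hws]; exact hc)] at h
  exact ⟨ws, hws, g, hg, h⟩

lemma Bal1_head {T s : ℕ} {t : Tile} {gs : List (ℕ → ℕ)} {w : List Tile}
    (h : ∃ ws ∈ tw t, ∃ g ∈ gs, balb T (dotF ws g s) = true) : Bal1 T gs s (t :: w) := by
  obtain ⟨ws, hws, g, hg, h⟩ := h
  refine ⟨(s, ws), ?_, g, hg, h⟩
  rw [codes]
  exact List.mem_append_left _ (List.mem_map_of_mem hws)

lemma Bal1_tail {T s : ℕ} {t : Tile} {gs : List (ℕ → ℕ)} {w : List Tile}
    (h : Bal1 T gs (s + tl t) w) : Bal1 T gs s (t :: w) := by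
  obtain ⟨cd, hcd, h⟩ := h
  refine ⟨cd, ?_, h⟩
  rw [codes]
  exact List.mem_append_right _ hcd

lemma tail_map {s c : ℕ} (gs : List (ℕ → ℕ)) :
    (gs.map fun g => (List.range' s (c + 1)).map g).map List.tail =
      gs.map fun g => (List.range' (s + 1) c).map g := by
  rw [List.map_map]
  apply List.map_congr_left
  intro g _
  simp [List.range'_succ]

/-- soundness of the loop -/
lemma loopF_sound (T : ℕ) (gs : List (ℕ → ℕ)) : ∀ (c s : ℕ) (r0 r1 r2 r3 r4 r5 r6 : Bool),
    loopF T c (gs.map fun g => (List.range' s c).map g) r0 r1 r2 r3 r4 r5 r6 = false →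
    (r0 = true → ∀ w, len w = c → Bal1 T gs s w) ∧
    (r1 = true → ∀ w, 1 + len w = c → Bal1 T gs (s + 1) w) ∧
    (r2 = true → ∀ w, 2 + len w = c → Bal1 T gs (s + 2) w) ∧
    (r3 = true → ∀ w, 3 + len w = c → Bal1 T gs (s + 3) w) ∧
    (r4 = true → ∀ w, 4 + len w = c → Bal1 T gs (s + 4) w) ∧
    (r5 = true → ∀ w, 5 + len w = c → Bal1 T gs (s + 5) w) ∧
    (r6 = true → ∀ w, 6 + len w = c → Bal1 T gs (s + 6) w) := by
  intro c
  induction c with
  | zero =>
    intro s r0 r1 r2 r3 r4 r5 r6 h
    rw [loopF] at h
    refine ⟨fun h1 => ?_, ?_, ?_, ?_, ?_, ?_, ?_⟩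
    · rw [h] at h1; exact absurd h1 (by simp)
    all_goals
      intro _ w hw
      omega
  | succ c ih =>
    intro s r0 r1 r2 r3 r4 r5 r6 h
    rw [loopF, tail_map] at h
    cases r0 with
    | false =>
      rw [cond_false] at h
      obtain ⟨a0, a1, a2, a3, a4, a5, a6⟩ := ih (s + 1) _ _ _ _ _ _ _ h
      refine ⟨fun h => absurd h (by simp), ?_, ?_, ?_, ?_, ?_, ?_⟩
      · exact fun h w hw => a0 h w (by omega)
      · exact fun h w hw => a1 h w (by omega)
      · exact fun h w hw => a2 h w (by omega)
      · exact fun h w hw => a3 h w (by omega)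
      · exact fun h w hw => a4 h w (by omega)
      · exact fun h w hw => a5 h w (by omega)
    | true =>
      rw [cond_true, frcB_eq, frcB_eq, frcB_eq] at h
      obtain ⟨a0, a1, a2, a3, a4, a5, a6⟩ := ih (s + 1) _ _ _ _ _ _ _ h
      refine ⟨?_, ?_, ?_, ?_, ?_, ?_, ?_⟩
      · intro _ w hw
        cases w with
        | nil => simp [len] at hw
        | cons t w =>
          cases hb : bad T t (gs.map fun g => (List.range' s (c + 1)).map g) with
          | false =>
            exact Bal1_head (bad_false (by simp only [len] at hw; omega) hb)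
          | true =>
            apply Bal1_tail
            cases t with
            | a =>
              simp only [len, tl] at hw
              exact a0 (by simp [hb]) w (by omega)
            | b =>
              simp only [len, tl] at hw
              exact a2 (by
                rw [hb, show Nat.ble 2 c = true from Nat.ble_eq_true_of_le (by omega)]
                simp) w (by omega)
            | c =>
              simp only [len, tl] at hw
              exact a6 (by
                rw [hb, show Nat.ble 6 c = true from Nat.ble_eq_true_of_le (by omega)]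
                simp) w (by omega)
      · exact fun h w hw => a0 (by simp [h]) w (by omega)
      · exact fun h w hw => a1 h w (by omega)
      · exact fun h w hw => a2 (by simp [h]) w (by omega)
      · exact fun h w hw => a3 h w (by omega)
      · exact fun h w hw => a4 h w (by omega)
      · exact fun h w hw => a5 h w (by omega)

end Pool.Agent.X211.SPG
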