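import Mathlib
import Pool.Agent.X211.SPG.G2
import Pool.Agent.X211.SPG.G3

/-! From the computable checks to balanced pairs. -/

namespace Pool.Agent.X211.SPG

open Pool.Agent.H931R3.Bal

/-- weighted sum of the values of a real function at consecutive places -/
noncomputable def dotR : List ℕ → (ℕ → ℝ) → ℕ → ℝ
  | [], _, _ => 0
  | w :: ws, f, s => w * f s + dotR ws f (s + 1)

/-- average of a function of the rank over a code -/
noncomputable def ev (cd : ℕ × List ℕ) (φ : ℕ → ℝ) : ℝ := dotR cd.2 φ cd.1 / 21

lemma dotR_cast (g : ℕ → ℕ) (c : ℝ) : ∀ (ws : List ℕ) (s : ℕ),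
    dotR ws (fun i => (g i : ℝ) / c) s = (dotF ws g s : ℝ) / c := by
  intro ws
  induction ws with
  | nil => intro s; simp [dotR, dotF]
  | cons w ws ih =>
    intro s
    rw [dotR, dotF, ih]
    push_cast
    ring

lemma dotR_congr {φ ψ : ℕ → ℝ} {N : ℕ} (h : ∀ i < N, φ i = ψ i) : ∀ (ws : List ℕ) (s : ℕ),
    s + ws.length ≤ N → dotR ws φ s = dotR ws ψ s := by
  intro ws
  induction ws with
  | nil => intro s _; simp [dotR]
  | cons w ws ih =>
    intro s hs
    simp only [List.length_cons] at hs
    rw [dotR, dotR, h s (by omega), ih (s + 1) (by omega)]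

lemma codes_valid : ∀ (w : List Tile) (s : ℕ) (cd : ℕ × List ℕ), cd ∈ codes s w →
    s ≤ cd.1 ∧ cd.1 + cd.2.length ≤ s + len w ∧ cd.2.sum = 21 := by
  intro w
  induction w with
  | nil => intro s cd h; simp [codes] at h
  | cons t w ih =>
    intro s cd h
    rw [codes, List.mem_append, List.mem_map] at h
    rcases h with ⟨ws, hws, rfl⟩ | h
    · refine ⟨le_rfl, ?_, tw_sum t ws hws⟩
      simp only [len]
      rw [tw_length t ws hws]
      omega
    · obtain ⟨h1, h2, h3⟩ := ih _ _ h
      simp only [len]
      exact ⟨by omega, by omega, h3⟩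

/-- the row of an element of the second poset -/
def rowv (n m : ℕ) (cd : ℕ × List ℕ) (i : ℕ) : ℕ := dotF cd.2 (fun j => Kf n m j i) cd.1

lemma choose_pos' (n m : ℕ) : 0 < (n + m).choose m := Nat.choose_pos (by omega)

lemma ev_FF {n m : ℕ} {cd : ℕ × List ℕ} (h : cd.1 + cd.2.length ≤ m) {i : ℕ} (hi : i < n) :
    ev cd (fun j => FF n m i j) = (rowv n m cd (i + 1) : ℝ) / (21 * ((n + m).choose m : ℕ)) := by
  unfold ev rowv
  rw [dotR_congr (N := m) (ψ := fun j => (Kf n m j (i + 1) : ℝ) / ((n + m).choose m : ℕ))
    (fun j hj => FF_eq_Kf hi hj) _ _ h, dotR_cast]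
  field_simp

/-- there is a balanced pair of elements of the two words -/
def Good2 (w v : List Tile) : Prop :=
  ∃ cd ∈ codes 0 w, ∃ cd' ∈ codes 0 v,
    2 / 5 ≤ ev cd (fun i => ev cd' (fun j => FF (len w) (len v) i j)) ∧
    ev cd (fun i => ev cd' (fun j => FF (len w) (len v) i j)) ≤ 3 / 5

lemma good_of_Bal1 {w v : List Tile} {gs : List (ℕ → ℕ)}
    (hgs : ∀ g ∈ gs, ∃ cd' ∈ codes 0 v, ∀ i, g i = rowv (len w) (len v) cd' (i + 1))
    (h : Bal1 (21 * (len w + len v).choose (len v)) gs 0 w) : Good2 w v := by
  obtain ⟨cd, hcd, g, hg, hb⟩ := h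
  obtain ⟨cd', hcd', hgi⟩ := hgs g hg
  refine ⟨cd, hcd, cd', hcd', ?_⟩
  obtain ⟨-, h1, -⟩ := codes_valid _ _ _ hcd
  obtain ⟨-, h2, -⟩ := codes_valid _ _ _ hcd'
  rw [zero_add] at h1 h2
  have hT : (0 : ℝ) < ((len w + len v).choose (len v) : ℕ) := by
    exact_mod_cast choose_pos' _ _
  have key : ev cd (fun i => ev cd' (fun j => FF (len w) (len v) i j)) =
      (dotF cd.2 g cd.1 : ℝ) / (441 * ((len w + len v).choose (len v) : ℕ)) := by
    rw [ev, dotR_congr (N := len w) (ψ := fun i => (g i : ℝ) /
      (21 * ((len w + len v).choose (len v) : ℕ))) (fun i hi => by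
        rw [ev_FF h2 hi, hgi]) _ _ h1, dotR_cast]
    field_simp
    norm_num
  rw [key]
  unfold balb at hb
  rw [Bool.and_eq_true, Nat.ble_eq, Nat.ble_eq] at hb
  obtain ⟨b1, b2⟩ := hb
  have b1' : (42 * (21 * ((len w + len v).choose (len v) : ℕ)) : ℝ) ≤ 5 * (dotF cd.2 g cd.1 : ℕ) := by
    exact_mod_cast b1
  have b2' : (5 * (dotF cd.2 g cd.1 : ℕ) : ℝ) ≤ 63 * (21 * ((len w + len v).choose (len v) : ℕ)) := by
    exact_mod_cast b2
  constructor
  · rw [le_div_iff₀ (by positivity)]
    linarith
  · rw [div_le_iff₀ (by positivity)]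
    linarith

lemma frcL_eq {α : Type} : ∀ (L : List ℕ) (f : List ℕ → α), frcL L f = f L := by
  intro L
  induction L with
  | nil => intro f; rfl
  | cons x L ih => intro f; rw [frcL, frc_eq, ih]

lemma frcLL_eq {α : Type} : ∀ (L : List (List ℕ)) (f : List (List ℕ) → α), frcLL L f = f L := by
  intro L
  induction L with
  | nil => intro f; rfl
  | cons x L ih => intro f; rw [frcLL, frcL_eq, ih]

lemma drop_range' (s : ℕ) : ∀ (k a c : ℕ), k + c = s →
    (List.range' a s).drop k = List.range' (a + k) c := by
  induction s with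
  | zero =>
    intro k a c h
    have h1 : k = 0 := by omega
    have h2 : c = 0 := by omega
    subst h1 h2
    simp
  | succ s ih =>
    intro k a c h
    cases k with
    | zero =>
      have : c = s + 1 := by omega
      subst this
      simp
    | succ k =>
      rw [List.range'_succ, List.drop_succ_cons, ih k (a + 1) c (by omega)]
      congr 1
      ring

lemma combRow {n m s : ℕ} {ws : List ℕ} (h : s + ws.length ≤ m) :
    comb (List.replicate n 0) ws ((rowsK n ((n + m).choose m) m 0).drop s) =
      (List.range' 0 n).map (fun i => rowv n m (s, ws) (i + 1)) := by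
  rw [rowsK_eq m 0 (by omega), ← List.map_drop, drop_range' m s 0 (m - s) (by omega), zero_add]
  exact comb_eq (fun j i => Kf n m j (i + 1)) ws s (m - s) (by omega)

lemma univ1_sound {n m s : ℕ} {ws : List ℕ} (h : s + ws.length ≤ m)
    (hu : univ1 n (21 * (n + m).choose m) ws ((rowsK n ((n + m).choose m) m 0).drop s) = true) :
    ∀ w, len w = n → Bal1 (21 * (n + m).choose m) [fun i => rowv n m (s, ws) (i + 1)] 0 w := by
  unfold univ1 at hu
  rw [frcL_eq, combRow h, Bool.not_eq_true'] at hu
  have := (loopF_sound (21 * (n + m).choose m) [fun i => rowv n m (s, ws) (i + 1)] n 0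
    true false false false false false false hu).1 rfl
  exact this

lemma cover : ∀ (w : List Tile) (s0 r : ℕ), s0 ≤ r → r < s0 + len w →
    ∃ s t, s0 ≤ s ∧ s ≤ r ∧ r < s + tl t ∧ s + tl t ≤ s0 + len w ∧
      ∀ ws ∈ tw t, (s, ws) ∈ codes s0 w := by
  intro w
  induction w with
  | nil => intro s0 r h1 h2; simp [len] at h2; omega
  | cons t w ih =>
    intro s0 r h1 h2
    simp only [len] at h2 ⊢
    by_cases h : r < s0 + tl t
    · refine ⟨s0, t, le_rfl, h1, h, by omega, fun ws hws => ?_⟩
      rw [codes]
      exact List.mem_append_left _ (List.mem_map_of_mem hws)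
    · obtain ⟨s, t', a1, a2, a3, a4, a5⟩ := ih (s0 + tl t) r (by omega) (by omega)
      refine ⟨s, t', by omega, a2, a3, by omega, fun ws hws => ?_⟩
      rw [codes]
      exact List.mem_append_right _ (a5 ws hws)

lemma okr_sound {n m T r : ℕ} {Ks : List (List ℕ)} (h : okr n m T Ks r = true) {s : ℕ} {t : Tile}
    (h1 : s ≤ r) (h2 : r < s + tl t) (h3 : s + tl t ≤ m) :
    ∃ ws ∈ tw t, univ1 n T ws (Ks.drop s) = true := by
  unfold okr at h
  rw [Bool.and_eq_true, Bool.and_eq_true, List.all_eq_true, List.all_eq_true] at h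
  obtain ⟨⟨ha, hb⟩, hc⟩ := h
  have key : tileOK n m T Ks s t = true := by
    cases t with
    | a =>
      simp only [tl] at h2
      have : s = r := by omega
      rw [this]
      exact ha
    | b =>
      simp only [tl] at h2
      have := hb (r - s) (List.mem_range.2 (by omega))
      rw [Bool.or_eq_true, Nat.ble_eq] at this
      rcases this with h | h
      · omega
      · rwa [show r - (r - s) = s by omega] at h
    | c =>
      simp only [tl] at h2
      have := hc (r - s) (List.mem_range.2 (by omega))
      rw [Bool.or_eq_true, Nat.ble_eq] at this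
      rcases this with h | h
      · omega
      · rwa [show r - (r - s) = s by omega] at h
  unfold tileOK at key
  rw [Bool.or_eq_true, Nat.ble_eq, List.any_eq_true] at key
  rcases key with h | h
  · omega
  · exact h

lemma good_of_okR {w v : List Tile} (h : okR (len w) (len v) = true) : Good2 w v := by
  unfold okR at h
  rw [frc_eq, frc_eq] at h
  unfold tot at h
  rw [ch_eq, List.any_eq_true] at h
  obtain ⟨r, -, h⟩ := h
  rw [Bool.and_eq_true, Nat.ble_eq] at h
  obtain ⟨h1, h2⟩ := h
  obtain ⟨s, t, -, a2, a3, a4, a5⟩ := cover v 0 r (by omega) (by omega)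
  rw [zero_add] at a4
  obtain ⟨ws, hws, hu⟩ := okr_sound h2 a2 a3 a4
  have hl := tw_length t ws hws
  apply good_of_Bal1 (gs := [fun i => rowv (len w) (len v) (s, ws) (i + 1)])
  · intro g hg
    rw [List.mem_singleton] at hg
    subst hg
    exact ⟨(s, ws), a5 ws hws, fun i => rfl⟩
  · exact univ1_sound (by omega) hu w rfl

lemma len_eq_zero {w : List Tile} (h : len w = 0) : w = [] := by
  cases w with
  | nil => rfl
  | cons t w => cases t <;> simp [len, tl] at h

lemma mem_wlF : ∀ (f m : ℕ) (w : List Tile), m ≤ f → len w = m → w ∈ wlF f m := by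
  intro f
  induction f with
  | zero =>
    intro m w h1 h2
    have : m = 0 := by omega
    subst this
    rw [len_eq_zero h2]
    simp [wlF]
  | succ f ih =>
    intro m w h1 h2
    cases m with
    | zero =>
      rw [len_eq_zero h2]
      simp [wlF]
    | succ m =>
      cases w with
      | nil => simp [len] at h2
      | cons t w =>
        rw [wlF, List.mem_append, List.mem_append]
        cases t with
        | a =>
          simp only [len, tl] at h2
          exact Or.inl (Or.inl (List.mem_map_of_mem (ih m w (by omega) (by omega))))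
        | b =>
          simp only [len, tl] at h2
          left; right
          rw [show Nat.ble 2 m = true from Nat.ble_eq_true_of_le (by omega), cond_true]
          exact List.mem_map_of_mem (ih (m - 2) w (by omega) (by omega))
        | c =>
          simp only [len, tl] at h2
          right
          rw [show Nat.ble 6 m = true from Nat.ble_eq_true_of_le (by omega), cond_true]
          exact List.mem_map_of_mem (ih (m - 6) w (by omega) (by omega))

lemma good_of_okW {w v : List Tile} (h : okW (len w) (len v) = true) : Good2 w v := by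
  unfold okW at h
  rw [frc_eq, frc_eq] at h
  unfold tot at h
  rw [ch_eq, List.all_eq_true] at h
  have h1 := h v (mem_wlF _ _ v le_rfl rfl)
  unfold jointOK at h1
  rw [frcLL_eq, Bool.not_eq_true'] at h1
  have h2 : ((codes 0 v).map fun cd => comb (List.replicate (len w) 0) cd.2
      ((rowsK (len w) ((len w + len v).choose (len v)) (len v) 0).drop cd.1)) =
      ((codes 0 v).map fun cd => (fun i => rowv (len w) (len v) cd (i + 1))).map
        (fun g => (List.range' 0 (len w)).map g) := by
    rw [List.map_map]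
    apply List.map_congr_left
    intro cd hcd
    obtain ⟨-, h3, -⟩ := codes_valid _ _ _ hcd
    rw [zero_add] at h3
    exact combRow (s := cd.1) (ws := cd.2) h3
  rw [h2] at h1
  have h3 := (loopF_sound _ _ _ _ _ _ _ _ _ _ _ h1).1 rfl w rfl
  apply good_of_Bal1 _ h3
  intro g hg
  rw [List.mem_map] at hg
  obtain ⟨cd, hcd, rfl⟩ := hg
  exact ⟨cd, hcd, fun i => rfl⟩

end Pool.Agent.X211.SPG
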