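import Mathlib
import Pool.Agent.X211.SPG.G4

/-! Functions with small steps cannot jump over the interval `[2/5, 3/5]`. -/

namespace Pool.Agent.X211.SPG

open Pool.Agent.H931R3.Bal

lemma step_tile {G : ℕ → ℝ} {n : ℕ} (hs : ∀ i ≤ n, G i - G (i + 1) ≤ 21 / 215)
    (hd : ∀ i ≤ n, 0 ≤ G i - G (i + 1)) (t : Tile) (s : ℕ) (hf : s + tl t ≤ n)
    (hG : 118 / 215 < G s) :
    (∃ ws ∈ tw t, 2 / 5 ≤ dotR ws (fun i => G (i + 1)) s / 21 ∧
      dotR ws (fun i => G (i + 1)) s / 21 ≤ 3 / 5) ∨ 118 / 215 < G (s + tl t) := by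
  by_contra hcon
  push Not at hcon
  obtain ⟨H, hG'⟩ := hcon
  cases t with
  | a =>
    simp only [tl] at hf hG'
    have s0 := hs s (by omega)
    have h1 := H [21] (by simp [tw])
    simp only [dotR] at h1
    norm_num at h1
    have := h1 (by linarith)
    linarith
  | b =>
    simp only [tl] at hf hG'
    have s0 := hs s (by omega)
    have s1 := hs (s + 1) (by omega)
    have s2 := hs (s + 2) (by omega)
    have d1 := hd (s + 1) (by omega)
    have d2 := hd (s + 2) (by omega)
    have h1 := H [14, 7, 0] (by simp [tw])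
    have h2 := H [7, 7, 7] (by simp [tw])
    have h3 := H [0, 7, 14] (by simp [tw])
    simp only [dotR, add_assoc] at h1 h2 h3 s0 s1 s2 d1 d2
    norm_num at h1 h2 h3 s0 s1 s2 d1 d2
    have a1 := h1 (by linarith)
    have a2 := h2 (by linarith)
    have a3 := h3 (by linarith)
    linarith
  | c =>
    simp only [tl] at hf hG'
    have s0 := hs s (by omega)
    have s1 := hs (s + 1) (by omega)
    have s2 := hs (s + 2) (by omega)
    have s3 := hs (s + 3) (by omega)
    have s4 := hs (s + 4) (by omega)
    have s5 := hs (s + 5) (by omega)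
    have s6 := hs (s + 6) (by omega)
    have d1 := hd (s + 1) (by omega)
    have d2 := hd (s + 2) (by omega)
    have d3 := hd (s + 3) (by omega)
    have d4 := hd (s + 4) (by omega)
    have d5 := hd (s + 5) (by omega)
    have d6 := hd (s + 6) (by omega)
    have h1 := H [12, 7, 2, 0, 0, 0, 0] (by simp [tw])
    have h2 := H [6, 6, 6, 3, 0, 0, 0] (by simp [tw])
    have h3 := H [0, 5, 10, 6, 0, 0, 0] (by simp [tw])
    have h4 := H [3, 3, 3, 3, 3, 3, 3] (by simp [tw])
    have h5 := H [0, 0, 0, 6, 10, 5, 0] (by simp [tw])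
    have h6 := H [0, 0, 0, 3, 6, 6, 6] (by simp [tw])
    have h7 := H [0, 0, 0, 0, 2, 7, 12] (by simp [tw])
    simp only [dotR, add_assoc] at h1 h2 h3 h4 h5 h6 h7 s0 s1 s2 s3 s4 s5 s6 d1 d2 d3 d4 d5 d6
    norm_num at h1 h2 h3 h4 h5 h6 h7 s0 s1 s2 s3 s4 s5 s6 d1 d2 d3 d4 d5 d6
    have a1 := h1 (by linarith)
    have a2 := h2 (by linarith)
    have a3 := h3 (by linarith)
    have a4 := h4 (by linarith)
    have a5 := h5 (by linarith)
    have a6 := h6 (by linarith)
    have a7 := h7 (by linarith)
    linarith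

lemma exists_balanced {G : ℕ → ℝ} {n : ℕ} (hn : G (n + 1) = 0)
    (hs : ∀ i ≤ n, G i - G (i + 1) ≤ 21 / 215)
    (hd : ∀ i ≤ n, 0 ≤ G i - G (i + 1)) : ∀ (w : List Tile) (s : ℕ), s + len w = n →
    118 / 215 < G s → ∃ cd ∈ codes s w, 2 / 5 ≤ ev cd (fun i => G (i + 1)) ∧
      ev cd (fun i => G (i + 1)) ≤ 3 / 5 := by
  intro w
  induction w with
  | nil =>
    intro s hsn hG
    simp only [len, add_zero] at hsn
    subst hsn
    have := hs s le_rfl
    rw [hn] at this
    linarith
  | cons t w ih =>
    intro s hsn hG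
    simp only [len] at hsn
    rcases step_tile hs hd t s (by omega) hG with ⟨ws, hws, h⟩ | h
    · exact ⟨(s, ws), List.mem_append_left _ (List.mem_map_of_mem hws), h⟩
    · obtain ⟨cd, hcd, h'⟩ := ih (s + tl t) (by omega) h
      exact ⟨cd, List.mem_append_right _ hcd, h'⟩

/-- sup norm at most `21/215` -/
def SN2 (n m j : ℕ) : Prop := ∀ i ≤ n, 215 * D n m j i ≤ 21 * (n + m).choose m

lemma SN2_succ {n m j : ℕ} (hj : j < m) (h : SN2 n m j) : SN2 (n + 1) m j := by
  intro i hi
  obtain ⟨b, rfl⟩ : ∃ b, m = j + 1 + b := ⟨m - (j + 1), by omega⟩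
  have hT : (n + 1 + (j + 1 + b)).choose (j + 1 + b) * (n + 1) =
      (n + (j + 1 + b)).choose (j + 1 + b) * (n + 1 + (j + 1 + b)) := by
    have := Nat.choose_mul_succ_eq (n + (j + 1 + b)) (j + 1 + b)
    rw [show n + (j + 1 + b) + 1 = n + 1 + (j + 1 + b) by omega,
      show n + 1 + (j + 1 + b) - (j + 1 + b) = n + 1 by omega] at this
    exact this.symm
  have key : (n + 1) * D (n + 1) (j + 1 + b) j i ≤
      (if i ≤ n then D n (j + 1 + b) j i * (n - i + b + 1) else 0) +
      (if 1 ≤ i then D n (j + 1 + b) j (i - 1) * (i + j) else 0) := by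
    unfold D
    rw [show j + 1 + b - 1 - j = b by omega]
    have A : i ≤ n → (n + 1 - i + b).choose b * (n + 1 - i) =
        (n - i + b).choose b * (n - i + b + 1) := by
      intro h1
      have := Nat.choose_mul_succ_eq (n - i + b) b
      rw [show n - i + b + 1 - b = n + 1 - i by omega] at this
      rw [show n + 1 - i + b = n - i + b + 1 by omega]
      exact this.symm
    have B : 1 ≤ i → (i + j).choose j * i = (i - 1 + j).choose j * (i + j) := by
      intro h1
      have := Nat.choose_mul_succ_eq (i - 1 + j) j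
      rw [show i - 1 + j + 1 - j = i by omega, show i - 1 + j + 1 = i + j by omega] at this
      exact this.symm
    have e3 : (n + 1) = (n + 1 - i) + i := by omega
    have lhs : (n + 1) * ((i + j).choose j * (n + 1 - i + b).choose b) =
        (i + j).choose j * ((n + 1 - i + b).choose b * (n + 1 - i)) +
        ((i + j).choose j * i) * (n + 1 - i + b).choose b := by
      nth_rw 1 [e3]
      ring
    rw [lhs]
    apply Nat.add_le_add
    · split_ifs with h1
      · rw [A h1]
        exact le_of_eq (by ring)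
      · have : n + 1 - i = 0 := by omega
        rw [this]
        simp
    · split_ifs with h1
      · rw [B h1]
        rw [show n - (i - 1) + b = n + 1 - i + b by omega]
        exact le_of_eq (by ring)
      · have : i = 0 := by omega
        rw [this]
        simp
  have hb1 : 215 * (if i ≤ n then D n (j + 1 + b) j i * (n - i + b + 1) else 0) ≤
      (21 * (n + (j + 1 + b)).choose (j + 1 + b)) * (n + 1 - i + b) := by
    split_ifs with h1
    · have := h i h1
      calc 215 * (D n (j + 1 + b) j i * (n - i + b + 1)) =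
          (215 * D n (j + 1 + b) j i) * (n - i + b + 1) := by ring
        _ ≤ (21 * (n + (j + 1 + b)).choose (j + 1 + b)) * (n - i + b + 1) :=
            Nat.mul_le_mul_right _ this
        _ = _ := by rw [show n - i + b + 1 = n + 1 - i + b by omega]
    · simp
  have hb2 : 215 * (if 1 ≤ i then D n (j + 1 + b) j (i - 1) * (i + j) else 0) ≤
      (21 * (n + (j + 1 + b)).choose (j + 1 + b)) * (i + j) := by
    split_ifs with h1
    · have := h (i - 1) (by omega)
      calc 215 * (D n (j + 1 + b) j (i - 1) * (i + j)) =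
          (215 * D n (j + 1 + b) j (i - 1)) * (i + j) := by ring
        _ ≤ (21 * (n + (j + 1 + b)).choose (j + 1 + b)) * (i + j) := Nat.mul_le_mul_right _ this
    · simp
  have h3 : (n + 1) * (215 * D (n + 1) (j + 1 + b) j i) ≤
      (n + 1) * (21 * (n + 1 + (j + 1 + b)).choose (j + 1 + b)) := by
    calc (n + 1) * (215 * D (n + 1) (j + 1 + b) j i) =
          215 * ((n + 1) * D (n + 1) (j + 1 + b) j i) := by
          ring
      _ ≤ 215 * ((if i ≤ n then D n (j + 1 + b) j i * (n - i + b + 1) else 0) +
          (if 1 ≤ i then D n (j + 1 + b) j (i - 1) * (i + j) else 0)) :=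
          Nat.mul_le_mul_left _ key
      _ ≤ (21 * (n + (j + 1 + b)).choose (j + 1 + b)) * (n + 1 - i + b) +
          (21 * (n + (j + 1 + b)).choose (j + 1 + b)) * (i + j) := by
          rw [mul_add]; exact Nat.add_le_add hb1 hb2
      _ = (21 * (n + (j + 1 + b)).choose (j + 1 + b)) * (n + 1 + b + j) := by
          rw [← mul_add]; congr 1; omega
      _ ≤ (21 * (n + (j + 1 + b)).choose (j + 1 + b)) * (n + 1 + (j + 1 + b)) :=
          Nat.mul_le_mul_left _ (by omega)
      _ = 21 * ((n + (j + 1 + b)).choose (j + 1 + b) * (n + 1 + (j + 1 + b))) := by ring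
      _ = (n + 1) * (21 * (n + 1 + (j + 1 + b)).choose (j + 1 + b)) := by rw [← hT]; ring
  exact Nat.le_of_mul_le_mul_left h3 (by omega)

lemma SN2_mono {n n' m j : ℕ} (hj : j < m) (hn : n ≤ n') (h : SN2 n m j) : SN2 n' m j := by
  induction n', hn using Nat.le_induction with
  | base => exact h
  | succ k _ ih => exact SN2_succ hj ih

lemma SN2_diag {a : ℕ} (ha : 2 * a + 1 ≤ 36)
    (h0 : 215 * (2 * a).choose a * (36 - a).centralBinom ≤ 42 * (36).centralBinom) :
    ∀ N, 36 ≤ N → SN2 N N a := by
  intro N hN
  have h : 215 * (2 * a).choose a * (N - a).centralBinom ≤ 42 * N.centralBinom := by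
    induction N, hN using Nat.le_induction with
    | base => exact h0
    | succ k hk ih =>
      obtain ⟨M, rfl⟩ : ∃ M, k = a + M := ⟨k - a, by omega⟩
      rw [show a + M + 1 - a = M + 1 by omega]
      rw [show a + M - a = M by omega] at ih
      have h1 := Nat.succ_mul_centralBinom_succ M
      have h2 := Nat.succ_mul_centralBinom_succ (a + M)
      have h3 : (M + 1) * (a + M + 1) * (215 * (2 * a).choose a * (M + 1).centralBinom) ≤
          (M + 1) * (a + M + 1) * (42 * (a + M + 1).centralBinom) := by
        calc (M + 1) * (a + M + 1) * (215 * (2 * a).choose a * (M + 1).centralBinom) =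
            215 * (2 * a).choose a * (a + M + 1) * ((M + 1) * (M + 1).centralBinom) := by ring
          _ = (215 * (2 * a).choose a * M.centralBinom) *
              (2 * (2 * M + 1) * (a + M + 1)) := by rw [h1]; ring
          _ ≤ (42 * (a + M).centralBinom) * (2 * (2 * M + 1) * (a + M + 1)) :=
              Nat.mul_le_mul_right _ ih
          _ ≤ (42 * (a + M).centralBinom) * (2 * ((2 * (a + M) + 1) * (M + 1))) := by
              apply Nat.mul_le_mul_left
              nlinarith
          _ = 42 * (M + 1) * (2 * (2 * (a + M) + 1) * (a + M).centralBinom) := by ring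
          _ = _ := by rw [← h2]; ring
      exact Nat.le_of_mul_le_mul_left h3 (by positivity)
  intro i hi
  have h1 := D_mode (N := N) (a := a) (by omega) hi
  have h2 := D_mid (N := N) (a := a) (by omega)
  rw [show N + N = 2 * N by ring, ← Nat.centralBinom]
  have h3 : 2 * (215 * D N N a i) ≤ 2 * (21 * N.centralBinom) := by
    calc 2 * (215 * D N N a i) ≤ 2 * (215 * D N N a a) := by omega
      _ = 215 * (2 * D N N a a) := by ring
      _ = 215 * (2 * a).choose a * (N - a).centralBinom := by rw [h2]; ring
      _ ≤ _ := h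
      _ = _ := by ring
  omega

/-- fast check of `SN2` -/
def SN2b (n m j : ℕ) : Bool :=
  frc (21 * ch (n + m) m) fun C => (List.range (n + 1)).all fun i => Nat.ble (215 * Df n m j i) C

lemma SN2_of_b {n m j : ℕ} (h : SN2b n m j = true) : SN2 n m j := by
  intro i hi
  unfold SN2b at h
  rw [frc_eq, List.all_eq_true] at h
  have := h i (List.mem_range.2 (by omega))
  rw [Nat.ble_eq, Df_eq, ch_eq] at this
  exact this

/-- all ranks in the support of a distribution are good -/
def supp (f : ℕ → Bool) : List ℕ → ℕ → Bool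
  | [], _ => true
  | w :: ws, s => (Nat.beq w 0 || f s) && supp f ws (s + 1)

/-- some element of each block covering `r` has a support of good ranks -/
def supR (f : ℕ → Bool) (m r : ℕ) : Bool :=
  f r && (List.range 3).all (fun i => Nat.ble (r + 1) i || Nat.ble (m + 1) (r - i + 3) ||
    (tw .b).any fun ws => supp f ws (r - i)) &&
  (List.range 7).all (fun i => Nat.ble (r + 1) i || Nat.ble (m + 1) (r - i + 7) ||
    (tw .c).any fun ws => supp f ws (r - i))

end Pool.Agent.X211.SPG
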