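import Mathlib
import Pool.Agent.X211.SPG.G2

/-! The finite check. -/

namespace Pool.Agent.X211.SPG

/-- membership test -/
def memP (n m : ℕ) (l : List (ℕ × ℕ)) : Bool := l.any fun p => Nat.beq n p.1 && Nat.beq m p.2

/-- pair check -/
def okP (n m : ℕ) : Bool := memP n m ((2, 1) :: (6, 1) :: exc) || okR n m

/-- for `n ≥ n0 m` the sup-norm criterion applies -/
def n0 (m : ℕ) : ℕ := [0, 10, 19, 28, 16, 19, 22, 26, 22, 25, 23, 25, 24, 26, 27, 27, 28, 28, 29,
  29, 29, 29, 30, 30, 31, 31, 32, 32, 33, 32, 33, 33, 34, 34, 34, 35].getD m 0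

/-- check of a range of sizes -/
def okRange (lo cnt : ℕ) : Bool :=
  (List.range' lo cnt).all fun m => (List.range' m (n0 m - m)).all fun n => okP n m

end Pool.Agent.X211.SPG
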