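import Mathlib
import Pool.Agent.X211.SPG.G5
import Pool.Agent.X211.SPG.K0

/-! The sup-norm criterion for large sizes. -/

namespace Pool.Agent.X211.SPG

open Pool.Agent.H931R3.Bal

/-- forced evaluation of a list of truth values -/
def frcBL {α : Type} : List Bool → (List Bool → α) → α
  | [], f => f []
  | x :: xs, f => frcB x fun v => frcBL xs fun vs => f (v :: vs)

lemma frcBL_eq {α : Type} : ∀ (L : List Bool) (f : List Bool → α), frcBL L f = f L := by
  intro L
  induction L with
  | nil => intro f; rfl
  | cons x L ih => intro f; rw [frcBL, frcB_eq, ih]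

/-- the sup-norm check for the size `m` of the smaller poset -/
def supm (m : ℕ) : Bool :=
  frc ((m - 1) / 2) fun r => frc (n0 m) fun N => frcBL ((List.range 13).map fun k =>
    SN2b N m (r + k - 6)) fun L => Nat.ble (r + 1) m &&
      supR (fun j => Nat.ble r (j + 6) && L.getD (j + 6 - r) false) m r

set_option maxRecDepth 100000 in
lemma sup_check1 : (List.range' 1 12).all supm = true := by
  decide +kernel

set_option maxRecDepth 100000 in
lemma sup_check2 : (List.range' 13 8).all supm = true := by
  decide +kernel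

set_option maxRecDepth 100000 in
lemma sup_check3 : (List.range' 21 8).all supm = true := by
  decide +kernel

set_option maxRecDepth 100000 in
lemma sup_check4 : (List.range' 29 7).all supm = true := by
  decide +kernel

lemma sup_check {m : ℕ} (h1 : 1 ≤ m) (h2 : m < 36) : supm m = true := by
  have key : ∀ lo cnt, (List.range' lo cnt).all supm = true → lo ≤ m → m < lo + cnt →
      supm m = true := by
    intro lo cnt h a b
    rw [List.all_eq_true] at h
    exact h m (List.mem_range'_1.2 ⟨a, b⟩)
  rcases Nat.lt_or_ge m 13 with h | h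
  · exact key _ _ sup_check1 h1 h
  rcases Nat.lt_or_ge m 21 with h | h
  · exact key _ _ sup_check2 (by omega) h
  rcases Nat.lt_or_ge m 29 with h | h
  · exact key _ _ sup_check3 (by omega) h
  · exact key _ _ sup_check4 (by omega) h2

lemma supR_sound {f : ℕ → Bool} {M r : ℕ} (h : supR f M r = true) {s : ℕ} {t : Tile}
    (h1 : s ≤ r) (h2 : r < s + tl t) (h3 : s + tl t ≤ M) :
    ∃ ws ∈ tw t, supp f ws s = true := by
  unfold supR at h
  rw [Bool.and_eq_true, Bool.and_eq_true, List.all_eq_true, List.all_eq_true] at h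
  obtain ⟨⟨ha, hb⟩, hc⟩ := h
  cases t with
  | a =>
    simp only [tl] at h2
    have : s = r := by omega
    rw [this]
    exact ⟨[21], by simp [tw], by simp [supp, ha]⟩
  | b =>
    simp only [tl] at h2 h3
    have := hb (r - s) (List.mem_range.2 (by omega))
    rw [Bool.or_eq_true, Bool.or_eq_true, Nat.ble_eq, Nat.ble_eq, List.any_eq_true,
      show r - (r - s) = s by omega] at this
    rcases this with (h | h) | h
    · omega
    · omega
    · exact h
  | c =>
    simp only [tl] at h2 h3
    have := hc (r - s) (List.mem_range.2 (by omega))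
    rw [Bool.or_eq_true, Bool.or_eq_true, Nat.ble_eq, Nat.ble_eq, List.any_eq_true,
      show r - (r - s) = s by omega] at this
    rcases this with (h | h) | h
    · omega
    · omega
    · exact h

lemma dotF_le {f : ℕ → Bool} {F : ℕ → ℕ} {B m : ℕ} (hf : ∀ j < m, f j = true → F j ≤ B) :
    ∀ (ws : List ℕ) (s : ℕ), s + ws.length ≤ m → supp f ws s = true →
      dotF ws F s ≤ ws.sum * B := by
  intro ws
  induction ws with
  | nil => intro s _ _; simp [dotF]
  | cons w ws ih =>
    intro s hs h
    simp only [List.length_cons] at hs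
    rw [supp, Bool.and_eq_true, Bool.or_eq_true] at h
    obtain ⟨h1, h2⟩ := h
    have h3 := ih (s + 1) (by omega) h2
    rw [dotF, List.sum_cons, add_mul]
    apply Nat.add_le_add _ h3
    rcases h1 with h1 | h1
    · have : w = 0 := Nat.eq_of_beq_eq_true h1
      subst this
      simp
    · exact Nat.mul_le_mul_left _ (hf s (by omega) h1)

lemma dotF_const (B : ℕ) : ∀ (ws : List ℕ) (s : ℕ), dotF ws (fun _ => B) s = ws.sum * B := by
  intro ws
  induction ws with
  | nil => intro s; simp [dotF]
  | cons w ws ih => intro s; rw [dotF, ih, List.sum_cons, add_mul]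

lemma dotF_congr {F F' : ℕ → ℕ} {m : ℕ} (h : ∀ j < m, F j = F' j) : ∀ (ws : List ℕ) (s : ℕ),
    s + ws.length ≤ m → dotF ws F s = dotF ws F' s := by
  intro ws
  induction ws with
  | nil => intro s _; simp [dotF]
  | cons w ws ih =>
    intro s hs
    simp only [List.length_cons] at hs
    rw [dotF, dotF, h s (by omega), ih (s + 1) (by omega)]

lemma dotF_add (F F' : ℕ → ℕ) : ∀ (ws : List ℕ) (s : ℕ),
    dotF ws (fun j => F j + F' j) s = dotF ws F s + dotF ws F' s := by
  intro ws
  induction ws with
  | nil => intro s; simp [dotF]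
  | cons w ws ih => intro s; rw [dotF, dotF, dotF, ih]; ring

lemma dotF_mul (c : ℕ) (F : ℕ → ℕ) : ∀ (ws : List ℕ) (s : ℕ),
    dotF ws (fun j => c * F j) s = c * dotF ws F s := by
  intro ws
  induction ws with
  | nil => intro s; simp [dotF]
  | cons w ws ih => intro s; rw [dotF, dotF, ih]; ring

lemma good_of_small {w v : List Tile} {s : ℕ} {ws : List ℕ} (hmem : (s, ws) ∈ codes 0 v)
    (h : ∀ i ≤ len w, 215 * dotF ws (fun j => D (len w) (len v) j i) s ≤
      21 * (21 * (len w + len v).choose (len v))) : Good2 w v := by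
  obtain ⟨-, h2, h3⟩ := codes_valid _ _ _ hmem
  rw [zero_add] at h2
  simp only at h2 h3
  have hC : (0 : ℝ) < (((len w + len v).choose (len v) : ℕ) : ℝ) := by
    exact_mod_cast choose_pos' _ _
  set C := (len w + len v).choose (len v) with hCdef
  set G : ℕ → ℝ := fun i => (rowv (len w) (len v) (s, ws) i : ℝ) / (21 * (C : ℝ)) with hG
  have hstep : ∀ i ≤ len w, rowv (len w) (len v) (s, ws) i =
      dotF ws (fun j => D (len w) (len v) j i) s + rowv (len w) (len v) (s, ws) (i + 1) := by
    intro i hi
    unfold rowv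
    rw [← dotF_add]
    exact dotF_congr (m := len v) (fun j hj => Kf_step hj hi) _ _ h2
  have hdiff : ∀ i ≤ len w, G i - G (i + 1) =
      (dotF ws (fun j => D (len w) (len v) j i) s : ℝ) / (21 * (C : ℝ)) := by
    intro i hi
    simp only [hG]
    rw [hstep i hi]
    push_cast
    ring
  have h0 : G 0 = 1 := by
    have : rowv (len w) (len v) (s, ws) 0 = 21 * C := by
      unfold rowv
      rw [dotF_congr (m := len v) (F' := fun _ => C) (fun j hj => Kf_zero hj) _ _ h2,
        dotF_const, h3]
    simp only [hG]
    rw [this]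
    push_cast
    exact div_self (by positivity)
  have hend : G (len w + 1) = 0 := by
    have : rowv (len w) (len v) (s, ws) (len w + 1) = 0 := by
      unfold rowv
      rw [dotF_congr (m := len v) (F' := fun _ => 0) (fun j hj => Kf_end hj) _ _ h2,
        dotF_const, mul_zero]
    simp only [hG]
    rw [this]
    simp
  obtain ⟨cd, hcd, hb1, hb2⟩ := exists_balanced (G := G) (n := len w) hend
    (fun i hi => by
      rw [hdiff i hi, div_le_div_iff₀ (by positivity) (by norm_num)]
      have := h i hi
      have h' : ((215 * dotF ws (fun j => D (len w) (len v) j i) s : ℕ) : ℝ) ≤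
        ((21 * (21 * C) : ℕ) : ℝ) := by exact_mod_cast this
      push_cast at h'
      linarith)
    (fun i hi => by rw [hdiff i hi]; positivity) w 0 (by omega) (by rw [h0]; norm_num)
  refine ⟨cd, hcd, (s, ws), hmem, ?_⟩
  have key : ev cd (fun i => ev (s, ws) (fun j => FF (len w) (len v) i j)) =
      ev cd (fun i => G (i + 1)) := by
    obtain ⟨-, h1, -⟩ := codes_valid _ _ _ hcd
    rw [zero_add] at h1
    unfold ev
    congr 1
    apply dotR_congr (N := len w) _ _ _ h1
    intro i hi
    exact ev_FF (cd := (s, ws)) h2 hi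
  rw [key]
  exact ⟨hb1, hb2⟩

lemma good_of_supR {w v : List Tile} {f : ℕ → Bool} {M r : ℕ} (hr : r < len v)
    (hM : ∀ s t, s ≤ r → s + tl t ≤ len v → s + tl t ≤ M) (h : supR f M r = true)
    (hf : ∀ j < len v, f j = true → SN2 (len w) (len v) j) : Good2 w v := by
  obtain ⟨s, t, -, a2, a3, a4, a5⟩ := cover v 0 r (by omega) (by omega)
  rw [zero_add] at a4
  obtain ⟨ws, hws, hs⟩ := supR_sound h a2 a3 (hM s t a2 a4)
  apply good_of_small (a5 ws hws)
  intro i hi
  have h1 := dotF_le (F := fun j => 215 * D (len w) (len v) j i)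
    (B := 21 * (len w + len v).choose (len v)) (fun j hj hfj => hf j hj hfj i hi) ws s
    (by rw [tw_length t ws hws]; exact a4) hs
  rw [dotF_mul, tw_sum t ws hws] at h1
  exact h1

/-- sizes covered by the sup-norm criterion -/
lemma good_large {w v : List Tile} (h1 : 1 ≤ len v) (h2 : len v < 36) (h3 : n0 (len v) ≤ len w) :
    Good2 w v := by
  have h := sup_check h1 h2
  unfold supm at h
  rw [frc_eq, frc_eq, frcBL_eq, Bool.and_eq_true, Nat.ble_eq] at h
  obtain ⟨hr, h⟩ := h
  apply good_of_supR (by omega) (fun s t _ h => h) h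
  intro j hj hfj
  apply SN2_mono hj h3
  set r := (len v - 1) / 2
  rw [Bool.and_eq_true, Nat.ble_eq] at hfj
  obtain ⟨hj6, hfj⟩ := hfj
  have hk : j + 6 - r < 13 := by
    by_contra hk
    rw [List.getD_eq_default _ _ (by simp; omega)] at hfj
    exact absurd hfj (by simp)
  rw [List.getD_eq_getElem _ _ (by simpa using hk), List.getElem_map, List.getElem_range,
    show r + (j + 6 - r) - 6 = j by omega] at hfj
  exact SN2_of_b hfj

lemma numSN (a : ℕ) (h : Nat.ble (215 * ch (2 * a) a * ch (2 * (36 - a)) (36 - a))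
    (42 * ch (2 * 36) 36) = true) :
    215 * (2 * a).choose a * (36 - a).centralBinom ≤ 42 * (36).centralBinom := by
  rw [Nat.centralBinom, Nat.centralBinom, ← ch_eq, ← ch_eq, ← ch_eq]
  rwa [Nat.ble_eq] at h

lemma numSN13 : ∀ a ∈ [13, 14, 15, 16, 17], Nat.ble (215 * ch (2 * a) a *
    ch (2 * (36 - a)) (36 - a)) (42 * ch (2 * 36) 36) = true := by
  decide +kernel

lemma supR15 : supR (fun j => Nat.ble 13 j && Nat.ble j 17) 36 15 = true := by
  decide +kernel

lemma good_huge {w v : List Tile} (h1 : 36 ≤ len v) (h2 : len v ≤ len w) : Good2 w v := by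
  apply good_of_supR (M := 36) (r := 15) (by omega) (fun s t h _ => by
    have : tl t ≤ 7 := by cases t <;> simp [tl]
    omega) supR15
  intro j hj hfj
  simp only [Bool.and_eq_true, Nat.ble_eq] at hfj
  apply SN2_mono hj h2
  apply SN2_diag (by omega) _ _ h1
  apply numSN
  apply numSN13
  have : j = 13 ∨ j = 14 ∨ j = 15 ∨ j = 16 ∨ j = 17 := by omega
  simp only [List.mem_cons, List.not_mem_nil, or_false]
  exact this

end Pool.Agent.X211.SPG
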