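import Mathlib
import Pool.Agent.X211.SPG.K0

/-! Kernel computations. -/

namespace Pool.Agent.X211.SPG

set_option maxRecDepth 100000 in
lemma rng1 : okRange 1 1 = true := by
  decide +kernel

set_option maxRecDepth 100000 in
lemma rng2 : okRange 2 1 = true := by
  decide +kernel

set_option maxRecDepth 100000 in
lemma rng3 : okRange 3 1 = true := by
  decide +kernel

set_option maxRecDepth 100000 in
lemma rng4 : okRange 4 1 = true := by
  decide +kernel

set_option maxRecDepth 100000 in
lemma rng5 : okRange 5 1 = true := by
  decide +kernel

set_option maxRecDepth 100000 in
lemma rng6 : okRange 6 1 = true := by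
  decide +kernel

set_option maxRecDepth 100000 in
lemma rng7 : okRange 7 1 = true := by
  decide +kernel

set_option maxRecDepth 100000 in
lemma rng8 : okRange 8 1 = true := by
  decide +kernel

set_option maxRecDepth 100000 in
lemma rng9 : okRange 9 1 = true := by
  decide +kernel

set_option maxRecDepth 100000 in
lemma rng10 : okRange 10 1 = true := by
  decide +kernel

set_option maxRecDepth 100000 in
lemma rng11 : okRange 11 1 = true := by
  decide +kernel

set_option maxRecDepth 100000 in
lemma rng12 : okRange 12 1 = true := by
  decide +kernel

end Pool.Agent.X211.SPG
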