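import Mathlib
import Pool.Agent.X211.SPG.K0

/-! Kernel computations. -/

namespace Pool.Agent.X211.SPG

set_option maxRecDepth 100000 in
lemma rng13 : okRange 13 1 = true := by
  decide +kernel

set_option maxRecDepth 100000 in
lemma rng14 : okRange 14 1 = true := by
  decide +kernel

set_option maxRecDepth 100000 in
lemma rng15 : okRange 15 1 = true := by
  decide +kernel

set_option maxRecDepth 100000 in
lemma rng16 : okRange 16 1 = true := by
  decide +kernel

set_option maxRecDepth 100000 in
lemma rng17 : okRange 17 1 = true := by
  decide +kernel

set_option maxRecDepth 100000 in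
lemma rng18 : okRange 18 1 = true := by
  decide +kernel

end Pool.Agent.X211.SPG
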