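import Mathlib
import Pool.Agent.X211.SPG.K0

/-! Kernel computations. -/

namespace Pool.Agent.X211.SPG

set_option maxRecDepth 100000 in
lemma rng19 : okRange 19 1 = true := by
  decide +kernel

set_option maxRecDepth 100000 in
lemma rng20 : okRange 20 1 = true := by
  decide +kernel

set_option maxRecDepth 100000 in
lemma rng21 : okRange 21 1 = true := by
  decide +kernel

set_option maxRecDepth 100000 in
lemma rng22 : okRange 22 1 = true := by
  decide +kernel

set_option maxRecDepth 100000 in
lemma rng23 : okRange 23 1 = true := by
  decide +kernel

set_option maxRecDepth 100000 in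
lemma rng24 : okRange 24 1 = true := by
  decide +kernel

end Pool.Agent.X211.SPG
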