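import Mathlib
import Pool.Agent.X211.SPG.K0

/-! Kernel computations. -/

namespace Pool.Agent.X211.SPG

set_option maxRecDepth 100000 in
lemma rng25 : okRange 25 1 = true := by
  decide +kernel

set_option maxRecDepth 100000 in
lemma rng26 : okRange 26 1 = true := by
  decide +kernel

set_option maxRecDepth 100000 in
lemma rng27 : okRange 27 1 = true := by
  decide +kernel

set_option maxRecDepth 100000 in
lemma rng28 : okRange 28 1 = true := by
  decide +kernel

set_option maxRecDepth 100000 in
lemma rng29 : okRange 29 1 = true := by
  decide +kernel

set_option maxRecDepth 100000 in
lemma rng30 : okRange 30 1 = true := by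
  decide +kernel

set_option maxRecDepth 100000 in
lemma rng31 : okRange 31 1 = true := by
  decide +kernel

set_option maxRecDepth 100000 in
lemma rng32 : okRange 32 1 = true := by
  decide +kernel

set_option maxRecDepth 100000 in
lemma rng33 : okRange 33 1 = true := by
  decide +kernel

end Pool.Agent.X211.SPG
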