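import Mathlib
import Pool.Agent.X211.SPG.G6
import Pool.Agent.X211.SPG.K1
import Pool.Agent.X211.SPG.K2
import Pool.Agent.X211.SPG.K3
import Pool.Agent.X211.SPG.K4

/-! The exceptional pairs of words. -/

namespace Pool.Agent.X211.SPG

open Pool.Agent.H931R3.Bal

lemma okRange_one {m : ℕ} (h : okRange m 1 = true) {n : ℕ} (h1 : m ≤ n) (h2 : n < n0 m) :
    okP n m = true := by
  unfold okRange at h
  simp only [List.range'_one, List.all_cons, List.all_nil, Bool.and_true, List.all_eq_true] at h
  exact h n (List.mem_range'_1.2 ⟨h1, by omega⟩)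

lemma okP_all {m n : ℕ} (hm1 : 1 ≤ m) (hm : m < 36) (h1 : m ≤ n) (h2 : n < n0 m) :
    okP n m = true := by
  interval_cases m
  · exact okRange_one rng1 h1 h2
  · exact okRange_one rng2 h1 h2
  · exact okRange_one rng3 h1 h2
  · exact okRange_one rng4 h1 h2
  · exact okRange_one rng5 h1 h2
  · exact okRange_one rng6 h1 h2
  · exact okRange_one rng7 h1 h2
  · exact okRange_one rng8 h1 h2
  · exact okRange_one rng9 h1 h2
  · exact okRange_one rng10 h1 h2
  · exact okRange_one rng11 h1 h2
  · exact okRange_one rng12 h1 h2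
  · exact okRange_one rng13 h1 h2
  · exact okRange_one rng14 h1 h2
  · exact okRange_one rng15 h1 h2
  · exact okRange_one rng16 h1 h2
  · exact okRange_one rng17 h1 h2
  · exact okRange_one rng18 h1 h2
  · exact okRange_one rng19 h1 h2
  · exact okRange_one rng20 h1 h2
  · exact okRange_one rng21 h1 h2
  · exact okRange_one rng22 h1 h2
  · exact okRange_one rng23 h1 h2
  · exact okRange_one rng24 h1 h2
  · exact okRange_one rng25 h1 h2
  · exact okRange_one rng26 h1 h2
  · exact okRange_one rng27 h1 h2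
  · exact okRange_one rng28 h1 h2
  · exact okRange_one rng29 h1 h2
  · exact okRange_one rng30 h1 h2
  · exact okRange_one rng31 h1 h2
  · exact okRange_one rng32 h1 h2
  · exact okRange_one rng33 h1 h2
  · exfalso; change n < 34 at h2; omega
  · exfalso; change n < 35 at h2; omega

lemma memP_iff {n m : ℕ} {l : List (ℕ × ℕ)} : memP n m l = true ↔ (n, m) ∈ l := by
  unfold memP
  rw [List.any_eq_true]
  constructor
  · rintro ⟨⟨a, b⟩, h1, h2⟩
    rw [Bool.and_eq_true, Nat.beq_eq, Nat.beq_eq] at h2
    obtain ⟨rfl, rfl⟩ := h2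
    exact h1
  · intro h
    exact ⟨_, h, by simp⟩

lemma okW_exc {n m : ℕ} (h : (n, m) ∈ exc) : okW n m = true := by
  have h1 := checkW
  rw [List.all_eq_true] at h1
  exact h1 _ h

lemma row61 (i : ℕ) : rowv 6 1 (0, [21]) (i + 1) = 21 * (6 - i) := by
  simp [rowv, dotF, Kf]

/-- balance of a word of length six against one element -/
def chk61 (w : List Tile) : Bool :=
  decide (w = [.b, .b]) || (codes 0 w).any fun cd =>
    balb (21 * 7) (dotF cd.2 (fun i => 21 * (6 - i)) cd.1)

lemma chk61_all : (wlF 6 6).all chk61 = true := by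
  decide +kernel

lemma wl22 : ∀ w ∈ wlF 2 2, w = [.a, .a] := by decide
lemma wl11 : ∀ w ∈ wlF 1 1, w = [.a] := by decide

/-- all pairs of words have a balanced pair of elements, with two exceptions -/
lemma words {w v : List Tile} (h1 : 1 ≤ len v) (h2 : len v ≤ len w) :
    Good2 w v ∨ (w = [.a, .a] ∧ v = [.a]) ∨ (w = [.b, .b] ∧ v = [.a]) := by
  rcases Nat.lt_or_ge (len v) 36 with h3 | h3
  swap
  · exact Or.inl (good_huge h3 h2)
  rcases Nat.lt_or_ge (len w) (n0 (len v)) with h4 | h4
  swap
  · exact Or.inl (good_large h1 h3 h4)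
  have h := okP_all h1 h3 h2 h4
  unfold okP at h
  rw [Bool.or_eq_true, memP_iff, List.mem_cons, List.mem_cons] at h
  rcases h with (h | h | h) | h
  · rw [Prod.mk.injEq] at h
    obtain ⟨e1, e2⟩ := h
    right; left
    exact ⟨wl22 w (mem_wlF 2 2 w le_rfl e1), wl11 v (mem_wlF 1 1 v le_rfl e2)⟩
  · rw [Prod.mk.injEq] at h
    obtain ⟨e1, e2⟩ := h
    have hv := wl11 v (mem_wlF 1 1 v le_rfl e2)
    have hw := chk61_all
    rw [List.all_eq_true] at hw
    have hw1 := hw w (mem_wlF 6 6 w le_rfl e1)
    unfold chk61 at hw1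
    rw [Bool.or_eq_true, decide_eq_true_eq, List.any_eq_true] at hw1
    rcases hw1 with hw1 | ⟨cd, hcd, hb⟩
    · right; right
      exact ⟨hw1, hv⟩
    · left
      subst hv
      apply good_of_Bal1 (gs := [fun i => 21 * (6 - i)])
      · intro g hg
        rw [List.mem_singleton] at hg
        subst hg
        refine ⟨(0, [21]), by simp [codes, tw], fun i => ?_⟩
        rw [e1, e2, row61]
      · refine ⟨cd, hcd, _, List.mem_singleton.2 rfl, ?_⟩
        rw [e1, e2]
        exact hb
  · exact Or.inl (good_of_okW (okW_exc h))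
  · exact Or.inl (good_of_okR h)

end Pool.Agent.X211.SPG
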