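import Mathlib
import Pool.Agent.X211.SPG.G7

/-! Rank distributions in the seven-element poset. -/

namespace Pool.Agent.X211.SPG

open Finset Pool.Agent.H13R3.WB Pool.Agent.H931R3.Bal

lemma s_succAbove {n : ℕ} (s : LEn (Fin n ⊕ Fin 1) (n + 1)) (i : Fin n) :
    s.1 (Sum.inl i) = (s.1 (Sum.inr 0)).succAbove i := by
  have h1 : StrictMono (fun i : Fin n => s.1 (Sum.inl i)) := fun a b h => (s_inl_lt s a b).2 h
  have h2 := Fin.strictMono_succAbove (s.1 (Sum.inr 0))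
  have h3 : Set.range (fun i : Fin n => s.1 (Sum.inl i)) =
      Set.range (Fin.succAbove (s.1 (Sum.inr 0))) := by
    rw [Fin.range_succAbove]
    ext p
    simp only [Set.mem_range, Set.mem_compl_iff, Set.mem_singleton_iff]
    constructor
    · rintro ⟨j, rfl⟩ h
      exact absurd (s.1.injective h) (by simp)
    · intro h
      obtain ⟨z, hz⟩ := s.1.surjective p
      rcases z with j | j
      · exact ⟨j, hz⟩
      · rw [Subsingleton.elim j 0] at hz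
        exact absurd hz.symm h
  exact congrFun ((StrictMono.range_inj h1 h2).1 h3) i

lemma s_bij (n : ℕ) : Function.Bijective
    (fun s : LEn (Fin n ⊕ Fin 1) (n + 1) => s.1 (Sum.inr 0)) := by
  rw [Fintype.bijective_iff_injective_and_card]
  constructor
  · intro s s' h
    apply Subtype.ext
    apply Equiv.ext
    intro z
    rcases z with i | i
    · have h' : s.1 (Sum.inr 0) = s'.1 (Sum.inr 0) := h
      rw [s_succAbove, s_succAbove, h']
    · rw [Subsingleton.elim i 0]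
      exact h
  · rw [card_Sh]; simp

lemma sum_s_inl {n : ℕ} (i : Fin n) (φ : ℕ → ℝ) :
    ∑ s : LEn (Fin n ⊕ Fin 1) (n + 1), φ (s.1 (Sum.inl i)) =
      ∑ p : Fin (n + 1), φ (p.succAbove i) := by
  rw [← (s_bij n).sum_comp (fun p : Fin (n + 1) => φ (p.succAbove i))]
  apply Finset.sum_congr rfl
  intro s _
  rw [s_succAbove]

lemma sum_s_inr {n : ℕ} (φ : ℕ → ℝ) :
    ∑ s : LEn (Fin n ⊕ Fin 1) (n + 1), φ (s.1 (Sum.inr 0)) = ∑ p : Fin (n + 1), φ p :=
  (s_bij n).sum_comp (fun p : Fin (n + 1) => φ p)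

variable {P : Type} [Fintype P] [PartialOrder P]

lemma card_one : (Fintype.card (LEn (Fin 1) 1) : ℝ) = 1 := by
  have h := card_Sh (n := 0) (m := 1)
  have e : Fintype.card (LEn (Fin 1) 1) = 1 := by
    rw [Fintype.card_eq_one_iff_nonempty_unique]
    have hne := LEn_nonempty (P := Fin 1) (n := 1) (by simp)
    have : Subsingleton (LEn (Fin 1) 1) := by
      constructor
      intro a b
      apply Subtype.ext
      apply Equiv.ext
      intro z
      exact Subsingleton.elim _ _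
    exact ⟨uniqueOfSubsingleton hne.some⟩
  rw [e]; simp

lemma avg_add_inl {n : ℕ} (hn : Fintype.card P = n) (x : P) (φ : ℕ → ℝ) :
    avg (P ⊕ Fin 1) (n + 1) (Sum.inl x) φ =
      (∑ σ : LEn P n, ∑ p : Fin (n + 1), φ (p.succAbove (σ.1 x))) /
        (Fintype.card (LEn P n) * (n + 1)) := by
  unfold avg
  rw [sum_disj hn (by simp : Fintype.card (Fin 1) = 1), card_disj hn (by simp), card_Sh]
  push_cast
  rw [card_one]
  have h1 : ∀ σ : LEn P n, ∑ τ : LEn (Fin 1) 1, ∑ s : LEn (Fin n ⊕ Fin 1) (n + 1),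
      φ ((sumF σ τ s).1 (Sum.inl x)) = ∑ p : Fin (n + 1), φ (p.succAbove (σ.1 x)) := by
    intro σ
    simp_rw [sumF_inl]
    rw [Finset.sum_const, sum_s_inl, Finset.card_univ, nsmul_eq_mul, card_one, one_mul]
  simp_rw [h1]
  congr 1
  rw [Nat.choose_one_right]
  push_cast
  ring

lemma avg_add_inr {n : ℕ} (hn : Fintype.card P = n) (φ : ℕ → ℝ) :
    avg (P ⊕ Fin 1) (n + 1) (Sum.inr 0) φ = (∑ p : Fin (n + 1), φ p) / (n + 1) := by
  have h1 := card_ne hn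
  unfold avg
  rw [sum_disj hn (by simp : Fintype.card (Fin 1) = 1), card_disj hn (by simp), card_Sh]
  push_cast
  rw [card_one]
  have h2 : ∀ τ : LEn (Fin 1) 1, ∑ s : LEn (Fin n ⊕ Fin 1) (n + 1),
      φ (s.1 (Sum.inr (τ.1 0))) = ∑ p : Fin (n + 1), φ p := by
    intro τ
    rw [Subsingleton.elim (τ.1 0) 0]
    exact sum_s_inr φ
  simp_rw [sumF_inr, h2]
  rw [Finset.sum_const, Finset.sum_const, Finset.card_univ, Finset.card_univ, nsmul_eq_mul,
    nsmul_eq_mul, card_one, Nat.choose_one_right]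
  push_cast
  field_simp

lemma sum7 (i : Fin 6) (φ : ℕ → ℝ) : ∑ p : Fin (6 + 1), φ (p.succAbove i) =
    (6 - (i : ℕ)) * φ i + ((i : ℕ) + 1) * φ ((i : ℕ) + 1) := by
  have key : ∀ (i : Fin 6) (p : Fin (6 + 1)), ((p.succAbove i : Fin (6 + 1)) : ℕ) =
      if (p : ℕ) ≤ i then (i : ℕ) + 1 else i := by decide
  simp_rw [key]
  rw [Fin.sum_univ_seven]
  fin_cases i <;> simp <;> ring

lemma card_EE2 : Fintype.card (EE ⊕ₗ EE) = 6 := by rw [card_lexS]; simp

lemma avg7_inl (x : EE ⊕ₗ EE) (φ : ℕ → ℝ) : avg X7 7 (Sum.inl x) φ =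
    avg (EE ⊕ₗ EE) 6 x (fun r => ((6 - (r : ℝ)) * φ r + (r + 1) * φ (r + 1)) / 7) := by
  have h := avg_add_inl (P := EE ⊕ₗ EE) card_EE2 x φ
  refine Eq.trans h ?_
  unfold avg
  rw [Finset.sum_congr rfl (fun (σ : LEn (EE ⊕ₗ EE) 6) _ => sum7 (σ.1 x) φ)]
  have h1 := card_ne (P := EE ⊕ₗ EE) card_EE2
  rw [← Finset.sum_div]
  field_simp
  norm_num

lemma avg7_inr (φ : ℕ → ℝ) : avg X7 7 (Sum.inr 0) φ =
    (φ 0 + φ 1 + φ 2 + φ 3 + φ 4 + φ 5 + φ 6) / 7 := by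
  have h := avg_add_inr (P := EE ⊕ₗ EE) card_EE2 φ
  refine Eq.trans h ?_
  rw [Fin.sum_univ_seven]
  norm_num

lemma avg7_low (z : EE) (φ : ℕ → ℝ) : avg X7 7 (Sum.inl (toLex (Sum.inl z))) φ =
    ((tab z 0 : ℝ) * ((6 * φ 0 + φ 1) / 7) + (tab z 1 : ℝ) * ((5 * φ 1 + 2 * φ 2) / 7) +
      (tab z 2 : ℝ) * ((4 * φ 2 + 3 * φ 3) / 7)) / 3 := by
  rw [avg7_inl]
  refine Eq.trans (avg_lex_inl (P := EE) (Q := EE) (n := 3) (m := 3) (by simp) (by simp) z _) ?_
  rw [avgE]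
  norm_num

lemma avg7_up (z : EE) (φ : ℕ → ℝ) : avg X7 7 (Sum.inl (toLex (Sum.inr z))) φ =
    ((tab z 0 : ℝ) * ((3 * φ 3 + 4 * φ 4) / 7) + (tab z 1 : ℝ) * ((2 * φ 4 + 5 * φ 5) / 7) +
      (tab z 2 : ℝ) * ((φ 5 + 6 * φ 6) / 7)) / 3 := by
  rw [avg7_inl]
  refine Eq.trans (avg_lex_inr (P := EE) (Q := EE) (n := 3) (m := 3) (by simp) (by simp) z _) ?_
  rw [avgE]
  norm_num

end Pool.Agent.X211.SPG
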