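import Mathlib
import Pool.Agent.X211.SPG.G8

/-! The class `𝒟₂` and the second gap for sums of posets. -/

namespace Pool.Agent.X211.SPG

open Finset Pool.Agent.H13R3.WB Pool.Agent.H931R3.Bal

/-- The class `𝒟₂`: the smallest class of posets closed under isomorphism that contains the
one-element poset, the three-element poset with one relation and the seven-element poset
`X7 = (EE ⊕ₗ EE) ⊕ 1`, and is closed under direct (ordinal) sums. -/
inductive InD2 : (P : Type) → [PartialOrder P] → Prop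
  | one (P : Type) [PartialOrder P] : Nonempty (P ≃o Fin 1) → InD2 P
  | three (P : Type) [PartialOrder P] : Nonempty (P ≃o EE) → InD2 P
  | seven (P : Type) [PartialOrder P] : Nonempty (P ≃o X7) → InD2 P
  | sum (P Q R : Type) [PartialOrder P] [PartialOrder Q] [PartialOrder R] :
      InD2 P → InD2 Q → Nonempty (R ≃o (P ⊕ₗ Q)) → InD2 R

/-- the poset of a block -/
def IsT : Tile → (P : Type) → [PartialOrder P] → Prop
  | .a, P, _ => Nonempty (P ≃o Fin 1)
  | .b, P, _ => Nonempty (P ≃o EE)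
  | .c, P, _ => Nonempty (P ≃o X7)

/-- the poset of a word -/
inductive Rep : List Tile → (P : Type) → [PartialOrder P] → Prop
  | single (t : Tile) (P : Type) [PartialOrder P] : IsT t P → Rep [t] P
  | cons (t : Tile) (w : List Tile) (A B P : Type) [PartialOrder A] [PartialOrder B]
      [PartialOrder P] : IsT t A → Rep w B → Nonempty (P ≃o (A ⊕ₗ B)) → Rep (t :: w) P

lemma Rep.append {w : List Tile} {P : Type} [PartialOrder P] (h : Rep w P) :
    ∀ {v : List Tile} {Q R : Type} [PartialOrder Q] [PartialOrder R], Rep v Q →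
      Nonempty (R ≃o (P ⊕ₗ Q)) → Rep (w ++ v) R := by
  induction h with
  | single t P hP =>
    intro v Q R _ _ hQ e
    exact Rep.cons t v P Q R hP hQ e
  | cons t w A B P hA hB e ih =>
    intro v Q R _ _ hQ e'
    obtain ⟨e⟩ := e
    obtain ⟨e'⟩ := e'
    have h1 : Rep (w ++ v) (B ⊕ₗ Q) := ih hQ ⟨OrderIso.refl _⟩
    exact Rep.cons t (w ++ v) A (B ⊕ₗ Q) R hA h1
      ⟨(e'.trans (OrderIso.sumLexCongr e (OrderIso.refl Q))).trans
        (OrderIso.sumLexAssoc A B Q)⟩

lemma InD2.rep {P : Type} [PartialOrder P] (h : InD2 P) : ∃ w, Rep w P := by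
  induction h with
  | one P e => exact ⟨[.a], Rep.single .a P e⟩
  | three P e => exact ⟨[.b], Rep.single .b P e⟩
  | seven P e => exact ⟨[.c], Rep.single .c P e⟩
  | sum P Q R _ _ e ihP ihQ =>
    obtain ⟨w, hw⟩ := ihP
    obtain ⟨v, hv⟩ := ihQ
    exact ⟨w ++ v, hw.append hv e⟩

lemma card_X7 : Fintype.card X7 = 7 := by rw [Fintype.card_sum, card_EE2]; simp

lemma tile_codes {t : Tile} {P : Type} [PartialOrder P] (h : IsT t P) :
    Finite P ∧ Nat.card P = tl t ∧ ∀ ws ∈ tw t, ∃ x : P, ∀ φ : ℕ → ℝ,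
      avg P (tl t) x φ = dotR ws φ 0 / 21 := by
  cases t with
  | a =>
    obtain ⟨e⟩ := h
    refine ⟨Finite.of_equiv _ e.symm.toEquiv, ?_, ?_⟩
    · rw [Nat.card_congr e.toEquiv]; simp [tl]
    · intro ws hws
      refine ⟨e.symm 0, fun φ => ?_⟩
      rw [show tl .a = 1 from rfl, avg_iso e.symm 1 0, avg_one]
      simp only [tw, List.mem_singleton] at hws
      subst hws
      simp [dotR]
  | b =>
    obtain ⟨e⟩ := h
    refine ⟨Finite.of_equiv _ e.symm.toEquiv, ?_, ?_⟩
    · rw [Nat.card_congr e.toEquiv]; simp [tl]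
    · intro ws hws
      simp only [tw, List.mem_cons, List.not_mem_nil, or_false] at hws
      rcases hws with rfl | rfl | rfl
      · refine ⟨e.symm (Sum.inl 0), fun φ => ?_⟩
        rw [show tl .b = 3 from rfl, avg_iso e.symm 3 (Sum.inl 0), avgE]
        simp [tab, dotR]; ring
      · refine ⟨e.symm (Sum.inr 0), fun φ => ?_⟩
        rw [show tl .b = 3 from rfl, avg_iso e.symm 3 (Sum.inr 0), avgE]
        simp [tab, dotR]; ring
      · refine ⟨e.symm (Sum.inl 1), fun φ => ?_⟩
        rw [show tl .b = 3 from rfl, avg_iso e.symm 3 (Sum.inl 1), avgE]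
        simp [tab, dotR]; ring
  | c =>
    obtain ⟨e⟩ := h
    refine ⟨Finite.of_equiv _ e.symm.toEquiv, ?_, ?_⟩
    · rw [Nat.card_congr e.toEquiv, Nat.card_eq_fintype_card, card_X7]; rfl
    · intro ws hws
      simp only [tw, List.mem_cons, List.not_mem_nil, or_false] at hws
      rcases hws with rfl | rfl | rfl | rfl | rfl | rfl | rfl
      · refine ⟨e.symm (Sum.inl (toLex (Sum.inl (Sum.inl 0)))), fun φ => ?_⟩
        rw [show tl .c = 7 from rfl, avg_iso e.symm 7, avg7_low]
        simp [tab, dotR]; ring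
      · refine ⟨e.symm (Sum.inl (toLex (Sum.inl (Sum.inr 0)))), fun φ => ?_⟩
        rw [show tl .c = 7 from rfl, avg_iso e.symm 7, avg7_low]
        simp [tab, dotR]; ring
      · refine ⟨e.symm (Sum.inl (toLex (Sum.inl (Sum.inl 1)))), fun φ => ?_⟩
        rw [show tl .c = 7 from rfl, avg_iso e.symm 7, avg7_low]
        simp [tab, dotR]; ring
      · refine ⟨e.symm (Sum.inr 0), fun φ => ?_⟩
        rw [show tl .c = 7 from rfl, avg_iso e.symm 7, avg7_inr]
        simp [dotR]; ring
      · refine ⟨e.symm (Sum.inl (toLex (Sum.inr (Sum.inl 0)))), fun φ => ?_⟩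
        rw [show tl .c = 7 from rfl, avg_iso e.symm 7, avg7_up]
        simp [tab, dotR]; ring
      · refine ⟨e.symm (Sum.inl (toLex (Sum.inr (Sum.inr 0)))), fun φ => ?_⟩
        rw [show tl .c = 7 from rfl, avg_iso e.symm 7, avg7_up]
        simp [tab, dotR]; ring
      · refine ⟨e.symm (Sum.inl (toLex (Sum.inr (Sum.inl 1)))), fun φ => ?_⟩
        rw [show tl .c = 7 from rfl, avg_iso e.symm 7, avg7_up]
        simp [tab, dotR]; ring

lemma dotR_shift (φ : ℕ → ℝ) (k : ℕ) : ∀ (ws : List ℕ) (s : ℕ),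
    dotR ws (fun i => φ (k + i)) s = dotR ws φ (k + s) := by
  intro ws
  induction ws with
  | nil => intro s; simp [dotR]
  | cons w ws ih => intro s; rw [dotR, dotR, ih]; rfl

/-- elements of the poset of a word realise all its codes -/
lemma rep_codes {w : List Tile} {P : Type} [PartialOrder P] (h : Rep w P) :
    w ≠ [] ∧ Finite P ∧ Nat.card P = len w ∧ ∀ s : ℕ, ∀ cd ∈ codes s w, ∃ x : P,
      ∀ φ : ℕ → ℝ, avg P (len w) x (fun i => φ (s + i)) = ev cd φ := by
  induction h with
  | single t P hP =>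
    obtain ⟨h1, h2, h3⟩ := tile_codes hP
    refine ⟨by simp, h1, by simp [len, h2], ?_⟩
    intro s cd hcd
    simp only [codes, List.append_nil, List.mem_map] at hcd
    obtain ⟨ws, hws, rfl⟩ := hcd
    obtain ⟨x, hx⟩ := h3 ws hws
    refine ⟨x, fun φ => ?_⟩
    have e : len [t] = tl t := by simp [len]
    rw [e, hx, dotR_shift]
    rfl
  | cons t w A B P hA hB e ih =>
    obtain ⟨e⟩ := e
    obtain ⟨h1, h2, h3⟩ := tile_codes hA
    obtain ⟨-, g1, g2, g3⟩ := ih
    have := Fintype.ofFinite A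
    have := Fintype.ofFinite B
    have c1 : Fintype.card A = tl t := by rw [← h2, Nat.card_eq_fintype_card]
    have c2 : Fintype.card B = len w := by rw [← g2, Nat.card_eq_fintype_card]
    have hfs : Finite (A ⊕ₗ B) := (inferInstance : Finite (A ⊕ B))
    refine ⟨by simp, Finite.of_equiv _ e.symm.toEquiv, ?_, ?_⟩
    · rw [Nat.card_congr e.toEquiv]
      have : Nat.card (A ⊕ₗ B) = Nat.card A + Nat.card B := Nat.card_sum
      rw [this, h2, g2]
      rfl
    · intro s cd hcd
      rw [codes, List.mem_append, List.mem_map] at hcd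
      rcases hcd with ⟨ws, hws, rfl⟩ | hcd
      · obtain ⟨x, hx⟩ := h3 ws hws
        refine ⟨e.symm (toLex (Sum.inl x)), fun φ => ?_⟩
        rw [len, avg_iso e.symm, avg_lex_inl c1 c2, hx, dotR_shift]
        rfl
      · obtain ⟨y, hy⟩ := g3 (s + tl t) cd hcd
        refine ⟨e.symm (toLex (Sum.inr y)), fun φ => ?_⟩
        rw [len, avg_iso e.symm, avg_lex_inr c1 c2, ← hy]
        congr 1
        funext i
        rw [add_assoc]

lemma InD2.nonempty {P : Type} [PartialOrder P] (h : InD2 P) : Nonempty P := by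
  obtain ⟨w, hw⟩ := h.rep
  obtain ⟨h1, h2, h3, -⟩ := rep_codes hw
  have : 0 < Nat.card P := by
    rw [h3]
    rcases Nat.eq_zero_or_pos (len w) with h0 | h0
    · exact absurd (len_eq_zero h0) h1
    · exact h0
  exact (Nat.card_pos_iff.1 this).1

lemma InD2.iso {P R : Type} [PartialOrder P] [PartialOrder R] (h : InD2 P) (e : P ≃o R) :
    InD2 R := by
  cases h with
  | one _ e1 => exact InD2.one R (e1.map fun e1 => e.symm.trans e1)
  | three _ e1 => exact InD2.three R (e1.map fun e1 => e.symm.trans e1)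
  | seven _ e1 => exact InD2.seven R (e1.map fun e1 => e.symm.trans e1)
  | sum A B _ hA hB e1 => exact InD2.sum A B R hA hB (e1.map fun e1 => e.symm.trans e1)

lemma rep_single {t : Tile} {P : Type} [PartialOrder P] (h : Rep [t] P) : IsT t P := by
  generalize hw : [t] = w at h
  cases h with
  | single t' _ h' =>
    simp only [List.cons.injEq, and_true] at hw
    subst hw
    exact h'
  | cons t' w' A B _ _ hB _ =>
    simp only [List.cons.injEq] at hw
    exact absurd hw.2.symm (rep_codes hB).1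

lemma rep_cons {t t' : Tile} {w : List Tile} {P : Type} [PartialOrder P]
    (h : Rep (t :: t' :: w) P) : ∃ (A B : Type) (_ : PartialOrder A) (_ : PartialOrder B),
      IsT t A ∧ Rep (t' :: w) B ∧ Nonempty (P ≃o (A ⊕ₗ B)) := by
  generalize hw : t :: t' :: w = w' at h
  cases h with
  | single t' _ h' => simp at hw
  | cons t'' w' A B _ hA hB e =>
    simp only [List.cons.injEq] at hw
    obtain ⟨rfl, rfl⟩ := hw
    exact ⟨A, B, _, _, hA, hB, e⟩

lemma rep_aa {P : Type} [PartialOrder P] (h : Rep [.a, .a] P) : InD P := by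
  obtain ⟨A, B, _, _, hA, hB, e⟩ := rep_cons h
  exact InD.sum A B P (InD.one A hA) (InD.one B (rep_single hB)) e

lemma rep_bb {P : Type} [PartialOrder P] (h : Rep [.b, .b] P) : Nonempty (P ≃o (EE ⊕ₗ EE)) := by
  obtain ⟨A, B, _, _, hA, hB, e⟩ := rep_cons h
  obtain ⟨a⟩ := hA
  obtain ⟨b⟩ := rep_single hB
  obtain ⟨e⟩ := e
  exact ⟨e.trans (OrderIso.sumLexCongr a b)⟩

variable {P Q : Type} [Fintype P] [Fintype Q] [PartialOrder P] [PartialOrder Q]

lemma le_balance2 {P : Type} [Fintype P] [PartialOrder P] {x y : P} (hxy : x ≠ y)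
    (h1 : 2 / 5 ≤ prob P x y) (h2 : prob P x y ≤ 3 / 5) : 2 / 5 ≤ balance P := by
  have h3 := prob_add hxy
  exact (le_min h1 (by linarith)).trans (le_balance x y)

lemma cross2 (hP : InD2 P) (hQ : InD2 Q) (hmn : Fintype.card Q ≤ Fintype.card P) :
    InD2 (P ⊕ Q) ∨ 2 / 5 ≤ balance (P ⊕ Q) := by
  obtain ⟨w, hw⟩ := hP.rep
  obtain ⟨v, hv⟩ := hQ.rep
  obtain ⟨hw0, -, hcw, hvw⟩ := rep_codes hw
  obtain ⟨hv0, -, hcv, hvv⟩ := rep_codes hv
  have hn : Fintype.card P = len w := by rw [← hcw, Nat.card_eq_fintype_card]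
  have hm : Fintype.card Q = len v := by rw [← hcv, Nat.card_eq_fintype_card]
  have hm1 : 1 ≤ len v := by
    rcases Nat.eq_zero_or_pos (len v) with h0 | h0
    · exact absurd (len_eq_zero h0) hv0
    · exact h0
  have hcard : Fintype.card (P ⊕ Q) = len w + len v := by
    rw [Fintype.card_sum, hn, hm]
  rcases words (w := w) (v := v) hm1 (by omega) with h | ⟨rfl, rfl⟩ | ⟨rfl, rfl⟩
  · right
    obtain ⟨cd, hcd, cd', hcd', hb1, hb2⟩ := h
    obtain ⟨x, hx⟩ := hvw 0 cd hcd
    obtain ⟨y, hy⟩ := hvv 0 cd' hcd'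
    have hpr : prob (P ⊕ Q) (Sum.inl x) (Sum.inr y) =
        ev cd (fun i => ev cd' (fun j => FF (len w) (len v) i j)) := by
      rw [prob_eq hcard, pr_disj_cross hn hm, ← hx]
      apply avg_congr
      intro i hi
      rw [← hy]
      simp
    apply le_balance2 (x := Sum.inl x) (y := Sum.inr y) (by simp)
    · rw [hpr]; exact hb1
    · rw [hpr]; exact hb2
  · left
    have hQ1 : Fintype.card Q = 1 := hm
    obtain ⟨e⟩ := chain_two (rep_aa hw) hn
    obtain ⟨f⟩ := rep_single hv
    exact InD2.three _ ⟨OrderIso.sumCongr e f⟩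
  · left
    obtain ⟨e⟩ := rep_bb hw
    obtain ⟨f⟩ := rep_single hv
    exact InD2.seven _ ⟨OrderIso.sumCongr e f⟩

/-- disjoint sum of two posets of the class `𝒟₂` -/
theorem cross_sum2 (hP : InD2 P) (hQ : InD2 Q) :
    InD2 (P ⊕ Q) ∨ 2 / 5 ≤ balance (P ⊕ Q) := by
  rcases le_total (Fintype.card Q) (Fintype.card P) with h | h
  · exact cross2 hP hQ h
  · have hne : Nonempty (Q ⊕ P) := by
      have := InD2.nonempty hP
      infer_instance
    rcases cross2 hQ hP h with h1 | h1
    · exact Or.inl (InD2.iso h1 (OrderIso.sumComm Q P))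
    · exact Or.inr (h1.trans (balance_iso (OrderIso.sumComm Q P)))

/-- the second gap property is inherited by disjoint sums -/
theorem gap_sum2 [Nonempty P] [Nonempty Q] {c : ℝ} (hc : c ≤ 2 / 5)
    (hP : InD2 P ∨ c ≤ balance P) (hQ : InD2 Q ∨ c ≤ balance Q) :
    InD2 (P ⊕ Q) ∨ c ≤ balance (P ⊕ Q) := by
  rcases hP with hP | hP
  · rcases hQ with hQ | hQ
    · rcases cross_sum2 hP hQ with h | h
      · exact Or.inl h
      · exact Or.inr (hc.trans h)
    · exact Or.inr (hQ.trans balance_sum_right)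
  · exact Or.inr (hP.trans balance_sum_left)

/-- the second gap property is inherited by direct sums -/
theorem gap_lex2 [Nonempty P] [Nonempty Q] {c : ℝ} (hP : InD2 P ∨ c ≤ balance P)
    (hQ : InD2 Q ∨ c ≤ balance Q) : InD2 (P ⊕ₗ Q) ∨ c ≤ balance (P ⊕ₗ Q) := by
  rcases hP with hP | hP
  · rcases hQ with hQ | hQ
    · exact Or.inl (InD2.sum P Q _ hP hQ ⟨OrderIso.refl _⟩)
    · exact Or.inr (hQ.trans balance_lex_right)
  · exact Or.inr (hP.trans balance_lex_left)

end Pool.Agent.X211.SPG
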