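import Mathlib
import Pool.Agent.X211.SPG.G9

/-! The second gap for series-parallel posets, reduction to irreducible posets, widths. -/

namespace Pool.Agent.X211.SPG

open Finset Pool.Agent.H13R3.WB Pool.Agent.H931R3.Bal

theorem sp_gap2 {R : Type} [PartialOrder R] (h : SeriesParallel R) :
    ∀ [Fintype R], Nonempty R ∧ (InD2 R ∨ 2 / 5 ≤ balance R) := by
  induction h with
  | one P e =>
    intro _
    obtain ⟨e⟩ := e
    exact ⟨⟨e.symm 0⟩, Or.inl (InD2.one P ⟨e⟩)⟩
  | disj P Q R _ _ e ihP ihQ =>
    intro hR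
    obtain ⟨e⟩ := e
    have fP : Finite P := Finite.of_injective (fun x : P => e.symm (Sum.inl x))
      (fun a b h => Sum.inl_injective (e.symm.injective h))
    have fQ : Finite Q := Finite.of_injective (fun x : Q => e.symm (Sum.inr x))
      (fun a b h => Sum.inr_injective (e.symm.injective h))
    have := Fintype.ofFinite P
    have := Fintype.ofFinite Q
    obtain ⟨n1, h1⟩ := ihP
    obtain ⟨n2, h2⟩ := ihQ
    have h3 := gap_sum2 le_rfl h1 h2
    refine ⟨⟨e.symm (Sum.inl n1.some)⟩, ?_⟩
    rcases h3 with h3 | h3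
    · exact Or.inl (InD2.iso h3 e.symm)
    · exact Or.inr (h3.trans (balance_iso e.symm))
  | direct P Q R _ _ e ihP ihQ =>
    intro hR
    obtain ⟨e⟩ := e
    have fP : Finite P := Finite.of_injective (fun x : P => e.symm (toLex (Sum.inl x)))
      (fun a b h => Sum.inl_injective (toLex.injective (e.symm.injective h)))
    have fQ : Finite Q := Finite.of_injective (fun x : Q => e.symm (toLex (Sum.inr x)))
      (fun a b h => Sum.inr_injective (toLex.injective (e.symm.injective h)))
    have := Fintype.ofFinite P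
    have := Fintype.ofFinite Q
    obtain ⟨n1, h1⟩ := ihP
    obtain ⟨n2, h2⟩ := ihQ
    have h3 := gap_lex2 h1 h2
    have : Nonempty (P ⊕ₗ Q) := ⟨toLex (Sum.inl n1.some)⟩
    refine ⟨⟨e.symm (toLex (Sum.inl n1.some))⟩, ?_⟩
    rcases h3 with h3 | h3
    · exact Or.inl (InD2.iso h3 e.symm)
    · exact Or.inr (h3.trans (balance_iso e.symm))

/-- `P` is connected, is not a direct sum, and all its nonempty proper autonomous subsets lie in
the class `𝒟₂`. -/
def Irreducible2 (P : Type) [PartialOrder P] : Prop :=
  (∀ (A B : Type) [PartialOrder A] [PartialOrder B] [Nonempty A] [Nonempty B],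
    IsEmpty (P ≃o (A ⊕ B))) ∧
  (∀ (A B : Type) [PartialOrder A] [PartialOrder B] [Nonempty A] [Nonempty B],
    IsEmpty (P ≃o (A ⊕ₗ B))) ∧
  (∀ M : Set P, M.Nonempty → M ≠ Set.univ → Autonomous M → InD2 M)

theorem reduction2 {c : ℝ} (hc : c ≤ 2 / 5)
    (h : ∀ (P : Type) [Fintype P] [PartialOrder P] [Nonempty P], Irreducible2 P →
      InD2 P ∨ c ≤ balance P) :
    ∀ (P : Type) [Fintype P] [PartialOrder P] [Nonempty P], InD2 P ∨ c ≤ balance P := by
  have key : ∀ (N : ℕ) (P : Type) [Fintype P] [PartialOrder P] [Nonempty P],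
      Fintype.card P = N → InD2 P ∨ c ≤ balance P := by
    intro N
    induction N using Nat.strong_induction_on with
    | _ N ih =>
      intro P _ _ _ hP
      by_cases hI : Irreducible2 P
      · exact h P hI
      unfold Irreducible2 at hI
      by_cases h1 : ∃ (A B : Type) (_ : PartialOrder A) (_ : PartialOrder B), Nonempty A ∧
          Nonempty B ∧ Nonempty (P ≃o (A ⊕ B))
      · obtain ⟨A, B, _, _, hA, hB, ⟨e⟩⟩ := h1
        have fA : Finite A := Finite.of_injective (fun x : A => e.symm (Sum.inl x))
          (fun a b h => Sum.inl_injective (e.symm.injective h))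
        have fB : Finite B := Finite.of_injective (fun x : B => e.symm (Sum.inr x))
          (fun a b h => Sum.inr_injective (e.symm.injective h))
        have := Fintype.ofFinite A
        have := Fintype.ofFinite B
        have hcard := card_of_iso_sum e.toEquiv
        rw [Nat.card_eq_fintype_card, Nat.card_eq_fintype_card] at hcard
        have pA : 0 < Fintype.card A := Fintype.card_pos
        have pB : 0 < Fintype.card B := Fintype.card_pos
        have g1 := ih (Fintype.card A) (by omega) A rfl
        have g2 := ih (Fintype.card B) (by omega) B rfl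
        rcases gap_sum2 hc g1 g2 with h3 | h3
        · exact Or.inl (InD2.iso h3 e.symm)
        · exact Or.inr (h3.trans (balance_iso e.symm))
      by_cases h2 : ∃ (A B : Type) (_ : PartialOrder A) (_ : PartialOrder B), Nonempty A ∧
          Nonempty B ∧ Nonempty (P ≃o (A ⊕ₗ B))
      · obtain ⟨A, B, _, _, hA, hB, ⟨e⟩⟩ := h2
        have fA : Finite A := Finite.of_injective (fun x : A => e.symm (toLex (Sum.inl x)))
          (fun a b h => Sum.inl_injective (toLex.injective (e.symm.injective h)))
        have fB : Finite B := Finite.of_injective (fun x : B => e.symm (toLex (Sum.inr x)))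
          (fun a b h => Sum.inr_injective (toLex.injective (e.symm.injective h)))
        have := Fintype.ofFinite A
        have := Fintype.ofFinite B
        have hcard := card_of_iso_sum (A := A) (B := B) e.toEquiv
        rw [Nat.card_eq_fintype_card, Nat.card_eq_fintype_card] at hcard
        have pA : 0 < Fintype.card A := Fintype.card_pos
        have pB : 0 < Fintype.card B := Fintype.card_pos
        have g1 := ih (Fintype.card A) (by omega) A rfl
        have g2 := ih (Fintype.card B) (by omega) B rfl
        have hne : Nonempty (A ⊕ₗ B) := ⟨toLex (Sum.inl hA.some)⟩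
        rcases gap_lex2 g1 g2 with h3 | h3
        · exact Or.inl (InD2.iso h3 e.symm)
        · exact Or.inr (h3.trans (balance_iso e.symm))
      have h3 : ∃ M : Set P, M.Nonempty ∧ M ≠ Set.univ ∧ Autonomous M ∧ ¬ InD2 M := by
        by_contra hcon
        push Not at hcon
        apply hI
        refine ⟨?_, ?_, ?_⟩
        · intro A B _ _ hA hB
          by_contra h4
          rw [not_isEmpty_iff] at h4
          exact h1 ⟨A, B, _, _, hA, hB, h4⟩
        · intro A B _ _ hA hB
          by_contra h4
          rw [not_isEmpty_iff] at h4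
          exact h2 ⟨A, B, _, _, hA, hB, h4⟩
        · intro M m1 m2 m3
          exact hcon M m1 m2 m3
      obtain ⟨M, m1, m2, m3, m4⟩ := h3
      have fM : Finite M := inferInstance
      have := Fintype.ofFinite M
      have nM : Nonempty M := m1.to_subtype
      have hlt : Fintype.card M < Fintype.card P := by
        rw [← Nat.card_eq_fintype_card, ← Nat.card_eq_fintype_card]
        have h5 : M ⊂ Set.univ := Set.ssubset_univ_iff.2 m2
        have h6 := Set.ncard_lt_ncard h5 (Set.finite_univ)
        rw [Set.ncard_univ] at h6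
        exact h6
      rcases ih (Fintype.card M) (by omega) M rfl with h6 | h6
      · exact absurd h6 m4
      · exact Or.inr (h6.trans (balance_autonomous m3))
  intro P _ _ _
  exact key _ P rfl

/-- posets of the class `𝒟₂` are covered by three chains -/
lemma InD2.chains {P : Type} [PartialOrder P] (h : InD2 P) :
    ∃ f : P → Fin 3, ∀ p q, f p = f q → p ≤ q ∨ q ≤ p := by
  induction h with
  | one P e =>
    obtain ⟨e⟩ := e
    refine ⟨fun _ => 0, fun p q _ => Or.inl ?_⟩
    exact e.le_iff_le.mp (by rw [Subsingleton.elim (e p) (e q)])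
  | three P e =>
    obtain ⟨e⟩ := e
    refine ⟨fun p => match e p with
      | Sum.inl _ => 0
      | Sum.inr _ => 1, fun p q h => ?_⟩
    rw [← e.le_iff_le, ← e.le_iff_le (x := q)]
    simp only at h
    rcases hp : e p with a | a <;> rcases hq : e q with b | b <;> rw [hp, hq] at h
    · rcases le_total a b with h1 | h1
      · exact Or.inl (Sum.inl_le_inl_iff.2 h1)
      · exact Or.inr (Sum.inl_le_inl_iff.2 h1)
    · exact absurd h (by simp)
    · exact absurd h (by simp)
    · rcases le_total a b with h1 | h1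
      · exact Or.inl (Sum.inr_le_inr_iff.2 h1)
      · exact Or.inr (Sum.inr_le_inr_iff.2 h1)
  | seven P e =>
    obtain ⟨e⟩ := e
    refine ⟨fun p => chainMap (e p), fun p q h => ?_⟩
    rw [← e.le_iff_le, ← e.le_iff_le (x := q)]
    exact chainMap_comp _ _ h
  | sum P Q R _ _ e ihP ihQ =>
    obtain ⟨e⟩ := e
    obtain ⟨f, hf⟩ := ihP
    obtain ⟨g, hg⟩ := ihQ
    refine ⟨fun p => match ofLex (e p) with
      | Sum.inl a => f a
      | Sum.inr b => g b, fun p q h => ?_⟩
    rw [← e.le_iff_le, ← e.le_iff_le (x := q)]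
    simp only at h
    rcases hp : e p with a | a <;> rcases hq : e q with b | b
    · rw [hp, hq] at h
      rcases hf a b h with h1 | h1
      · exact Or.inl (Sum.Lex.inl h1)
      · exact Or.inr (Sum.Lex.inl h1)
    · exact Or.inl (Sum.Lex.sep _ _)
    · exact Or.inr (Sum.Lex.sep _ _)
    · rw [hp, hq] at h
      rcases hg a b h with h1 | h1
      · exact Or.inl (Sum.Lex.inr h1)
      · exact Or.inr (Sum.Lex.inr h1)

lemma InD2.width_le {P : Type} [PartialOrder P] (h : InD2 P) {w : ℕ} (hw : HasWidth P w) :
    w ≤ 3 := by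
  obtain ⟨f, hf⟩ := h.chains
  obtain ⟨s, hs, hc⟩ := hw.1
  by_contra hcon
  have hcard : (univ : Finset (Fin 3)).card < s.card := by
    rw [card_univ, Fintype.card_fin]; omega
  obtain ⟨p, hp, q, hq, hpq, he⟩ := exists_ne_map_eq_of_card_lt_of_maps_to hcard
    (f := f) (fun _ _ => mem_univ _)
  rcases hf p q he with h | h
  · exact hs hp hq hpq h
  · exact hs hq hp hpq.symm h

theorem dSP_ge_four {w : ℕ} (hw : 4 ≤ w) : 2 / 5 ≤ dSP w :=
  dSP_ge (by omega) fun P _ _ h1 h2 => by
    rcases (sp_gap2 h1).2 with h3 | h3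
    · have := h3.width_le h2
      omega
    · exact h3

lemma balance_lex {P Q : Type} [Fintype P] [Fintype Q] [PartialOrder P] [PartialOrder Q]
    [Nonempty P] [Nonempty Q] : balance (P ⊕ₗ Q) = max (balance P) (balance Q) := by
  apply le_antisymm
  · have : Nonempty ((P ⊕ₗ Q) × (P ⊕ₗ Q)) :=
      ⟨(toLex (Sum.inl (Classical.arbitrary P)), toLex (Sum.inl (Classical.arbitrary P)))⟩
    unfold balance
    apply ciSup_le
    rintro ⟨x, y⟩
    simp only
    rcases x with x | x <;> rcases y with y | y
    · have h1 := prob_eq (n := Fintype.card P + Fintype.card Q) (P := P ⊕ₗ Q) card_lexS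
        (toLex (Sum.inl x)) (toLex (Sum.inl y))
      have h2 := prob_eq (n := Fintype.card P + Fintype.card Q) (P := P ⊕ₗ Q) card_lexS
        (toLex (Sum.inl y)) (toLex (Sum.inl x))
      rw [pr_lex_inl rfl rfl, ← prob_eq rfl] at h1 h2
      refine le_trans (le_of_eq ?_) ((le_balance x y).trans (le_max_left _ _))
      exact congrArg₂ min h1 h2
    · refine (min_le_right _ _).trans ?_
      have h2 := prob_eq (n := Fintype.card P + Fintype.card Q) (P := P ⊕ₗ Q) card_lexS
        (toLex (Sum.inr y)) (toLex (Sum.inl x))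
      rw [pr_zero_of_lt (Sum.Lex.inl_lt_inr x y)] at h2
      exact h2.le.trans (balance_nonneg.trans (le_max_left _ _))
    · refine (min_le_left _ _).trans ?_
      have h2 := prob_eq (n := Fintype.card P + Fintype.card Q) (P := P ⊕ₗ Q) card_lexS
        (toLex (Sum.inr x)) (toLex (Sum.inl y))
      rw [pr_zero_of_lt (Sum.Lex.inl_lt_inr y x)] at h2
      exact h2.le.trans (balance_nonneg.trans (le_max_left _ _))
    · have h1 := prob_eq (n := Fintype.card P + Fintype.card Q) (P := P ⊕ₗ Q) card_lexS
        (toLex (Sum.inr x)) (toLex (Sum.inr y))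
      have h2 := prob_eq (n := Fintype.card P + Fintype.card Q) (P := P ⊕ₗ Q) card_lexS
        (toLex (Sum.inr y)) (toLex (Sum.inr x))
      rw [pr_lex_inr rfl rfl, ← prob_eq rfl] at h1 h2
      refine le_trans (le_of_eq ?_) ((le_balance x y).trans (le_max_right _ _))
      exact congrArg₂ min h1 h2
  · exact max_le balance_lex_left balance_lex_right

lemma balance_iso_eq {P R : Type} [Fintype P] [PartialOrder P] [Fintype R] [PartialOrder R]
    [Nonempty P] [Nonempty R] (e : P ≃o R) : balance P = balance R :=
  le_antisymm (balance_iso e) (balance_iso e.symm)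

/-- balance constants of the posets of the class `𝒟₂` -/
theorem InD2.balance_mem {P : Type} [PartialOrder P] (h : InD2 P) : ∀ [Fintype P],
    balance P = 0 ∨ balance P = 1 / 3 ∨ balance P = 8 / 21 := by
  induction h with
  | one P e =>
    intro _
    obtain ⟨e⟩ := e
    have : Nonempty P := ⟨e.symm 0⟩
    left
    rw [balance_iso_eq e]
    exact balance_chain fun x y => le_total x y
  | three P e =>
    intro _
    obtain ⟨e⟩ := e
    have : Nonempty P := ⟨e.symm (Sum.inr 0)⟩
    right; left
    rw [balance_iso_eq e]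
    exact le_antisymm balance_EE_le balance_EE_ge
  | seven P e =>
    intro _
    obtain ⟨e⟩ := e
    have : Nonempty P := ⟨e.symm (Sum.inr 0)⟩
    right; right
    rw [balance_iso_eq e]
    exact sp_sharp.2.2
  | sum P Q R hP hQ e ihP ihQ =>
    intro _
    obtain ⟨e⟩ := e
    have fP : Finite P := Finite.of_injective (fun x : P => e.symm (toLex (Sum.inl x)))
      (fun a b h => Sum.inl_injective (toLex.injective (e.symm.injective h)))
    have fQ : Finite Q := Finite.of_injective (fun x : Q => e.symm (toLex (Sum.inr x)))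
      (fun a b h => Sum.inr_injective (toLex.injective (e.symm.injective h)))
    have := Fintype.ofFinite P
    have := Fintype.ofFinite Q
    have nP := InD2.nonempty hP
    have nQ := InD2.nonempty hQ
    have nS : Nonempty (P ⊕ₗ Q) := ⟨toLex (Sum.inl nP.some)⟩
    have nR : Nonempty R := ⟨e.symm nS.some⟩
    rw [balance_iso_eq e, balance_lex]
    rcases max_choice (balance P) (balance Q) with h | h <;> rw [h]
    · exact ihP
    · exact ihQ

lemma FF41 {i : ℕ} (hi : i < 4) : FF 4 1 i 0 = (4 - i : ℝ) / 5 := by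
  rw [FF_eq_Kf hi (by norm_num)]
  have : i = 0 ∨ i = 1 ∨ i = 2 ∨ i = 3 := by omega
  rcases this with rfl | rfl | rfl | rfl <;> simp [Kf] <;> norm_num

lemma rank_chain (f : LEn (Fin 4) 4) (i : Fin 4) : f.1 i = i := by
  have h1 : StrictMono f.1 := fun a b h => lt_of_mono f.2 h
  have := (StrictMono.range_inj h1 strictMono_id).1 (by
    rw [Set.range_id, f.1.surjective.range_eq])
  exact congrFun this i

lemma avg_chain (i : Fin 4) (φ : ℕ → ℝ) : avg (Fin 4) 4 i φ = φ i := by
  unfold avg
  have h1 := card_ne (P := Fin 4) (n := 4) (by simp)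
  rw [Finset.sum_congr rfl (fun (f : LEn (Fin 4) 4) _ => by rw [rank_chain f i]),
    Finset.sum_const, Finset.card_univ, nsmul_eq_mul]
  field_simp

lemma cross5 (x : Fin 4) : pr (Fin 4 ⊕ Fin 1) 5 (Sum.inl x) (Sum.inr 0) = (4 - (x : ℕ)) / 5 := by
  have := pr_disj_cross (P := Fin 4) (Q := Fin 1) (n := 4) (m := 1) (by simp) (by simp) x 0
  refine this.trans ?_
  rw [avg_chain, avg_one, FF41 x.2]

/-- the value `2/5` is a balance constant of a series-parallel poset -/
theorem balance_five : balance (Fin 4 ⊕ Fin 1) = 2 / 5 := by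
  have hc : Fintype.card (Fin 4 ⊕ Fin 1) = 5 := by simp
  have hadd : ∀ x : Fin 4, pr (Fin 4 ⊕ Fin 1) 5 (Sum.inl x) (Sum.inr 0) +
      pr (Fin 4 ⊕ Fin 1) 5 (Sum.inr 0) (Sum.inl x) = 1 := fun x => pr_add hc (by simp)
  apply le_antisymm
  · have : Nonempty ((Fin 4 ⊕ Fin 1) × (Fin 4 ⊕ Fin 1)) := ⟨(Sum.inr 0, Sum.inr 0)⟩
    have key : ∀ x : Fin 4, min (pr (Fin 4 ⊕ Fin 1) 5 (Sum.inl x) (Sum.inr 0))
        (pr (Fin 4 ⊕ Fin 1) 5 (Sum.inr 0) (Sum.inl x)) ≤ 2 / 5 := by
      intro x
      have h1 := cross5 x
      have h2 := hadd x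
      fin_cases x
      · refine (min_le_right _ _).trans ?_
        norm_num at h1 h2 ⊢
        linarith
      · refine (min_le_right _ _).trans ?_
        norm_num at h1 h2 ⊢
        linarith
      · refine (min_le_left _ _).trans ?_
        norm_num at h1 h2 ⊢
        linarith
      · refine (min_le_left _ _).trans ?_
        norm_num at h1 h2 ⊢
        linarith
    unfold balance
    apply ciSup_le
    rintro ⟨p, q⟩
    simp only
    rw [prob_eq hc, prob_eq hc]
    rcases p with p | p <;> rcases q with q | q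
    · rcases lt_trichotomy p q with h | h | h
      · refine (min_le_right _ _).trans ?_
        rw [pr_zero_of_lt (Sum.inl_lt_inl_iff.2 h)]; norm_num
      · rw [h, pr_self]; norm_num
      · refine (min_le_left _ _).trans ?_
        rw [pr_zero_of_lt (Sum.inl_lt_inl_iff.2 h)]; norm_num
    · rw [Subsingleton.elim q 0]
      exact key p
    · rw [Subsingleton.elim p 0, min_comm]
      exact key q
    · rw [Subsingleton.elim q p, pr_self]; norm_num
  · have h := le_balance (P := Fin 4 ⊕ Fin 1) (Sum.inl 1) (Sum.inr 0)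
    rw [prob_eq hc, prob_eq hc] at h
    have h1 := cross5 1
    have h2 := hadd 1
    refine le_trans (le_min ?_ ?_) h
    · rw [h1]; norm_num
    · norm_num at h1
      linarith

lemma sp_chain : ∀ n : ℕ, ∃ (P : Type) (_ : PartialOrder P), SeriesParallel P ∧
    Nonempty (P ≃o Fin (n + 1)) := by
  intro n
  induction n with
  | zero => exact ⟨Fin 1, inferInstance, sp_one, ⟨OrderIso.refl _⟩⟩
  | succ n ih =>
    obtain ⟨P, _, h1, ⟨e⟩⟩ := ih
    refine ⟨Fin 1 ⊕ₗ P, inferInstance, SeriesParallel.direct _ _ _ sp_one h1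
      ⟨OrderIso.refl _⟩, ⟨?_⟩⟩
    refine (OrderIso.sumLexCongr (OrderIso.refl (Fin 1)) e).trans ?_
    refine ⟨⟨fun z => match ofLex z with
      | Sum.inl _ => 0
      | Sum.inr i => i.succ, fun i => Fin.cases (toLex (Sum.inl 0)) (fun j => toLex (Sum.inr j)) i,
      ?_, ?_⟩, ?_⟩
    · intro z
      rcases z with z | z
      · rw [Subsingleton.elim z 0]; rfl
      · rfl
    · intro i
      refine Fin.cases ?_ (fun j => ?_) i
      · rfl
      · rfl
    · intro a b
      rcases a with a | a <;> rcases b with b | b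
      · rw [Subsingleton.elim a b]
        exact ⟨fun _ => le_rfl, fun _ => le_rfl⟩
      · exact ⟨fun _ => Sum.Lex.sep _ _, fun _ => Fin.zero_le _⟩
      · refine ⟨fun h => ?_, fun h => absurd h Sum.Lex.not_inr_le_inl⟩
        exact absurd h (by
          show ¬ (Fin.succ a ≤ 0)
          rw [Fin.le_zero_iff]
          exact Fin.succ_ne_zero a)
      · constructor
        · intro h
          exact Sum.Lex.inr (Fin.succ_le_succ_iff.1 h)
        · intro h
          exact Fin.succ_le_succ_iff.2 (Sum.Lex.inr_le_inr_iff.1 h)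

lemma SP.iso {P R : Type} [PartialOrder P] [PartialOrder R] (h : SeriesParallel P) (e : P ≃o R) :
    SeriesParallel R := by
  cases h with
  | one _ e1 => exact SeriesParallel.one R (e1.map fun e1 => e.symm.trans e1)
  | disj A B _ hA hB e1 =>
    exact SeriesParallel.disj A B R hA hB (e1.map fun e1 => e.symm.trans e1)
  | direct A B _ hA hB e1 =>
    exact SeriesParallel.direct A B R hA hB (e1.map fun e1 => e.symm.trans e1)

lemma sp_five : SeriesParallel (Fin 4 ⊕ Fin 1) := by
  obtain ⟨P, _, h1, ⟨e⟩⟩ := sp_chain 3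
  exact SeriesParallel.disj _ _ _ (SP.iso h1 e) sp_one ⟨OrderIso.refl _⟩

/-- the balance constants of series-parallel posets up to `2/5` -/
theorem spectrum : {d : ℝ | d ≤ 2 / 5 ∧ ∃ (P : Type) (_ : Fintype P) (_ : PartialOrder P),
    SeriesParallel P ∧ balance P = d} = {0, 1 / 3, 8 / 21, 2 / 5} := by
  ext d
  simp only [Set.mem_ofPred_eq, Set.mem_insert_iff, Set.mem_singleton_iff]
  constructor
  · rintro ⟨hd, P, _, _, h1, rfl⟩
    rcases (sp_gap2 h1).2 with h2 | h2
    · rcases h2.balance_mem with h3 | h3 | h3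
      · exact Or.inl h3
      · exact Or.inr (Or.inl h3)
      · exact Or.inr (Or.inr (Or.inl h3))
    · exact Or.inr (Or.inr (Or.inr (le_antisymm hd h2)))
  · rintro (rfl | rfl | rfl | rfl)
    · exact ⟨by norm_num, Fin 1, inferInstance, inferInstance, sp_one,
        balance_chain fun x y => le_total x y⟩
    · exact ⟨by norm_num, EE, inferInstance, inferInstance, sp_EE,
        le_antisymm balance_EE_le balance_EE_ge⟩
    · exact ⟨by norm_num, X7, inferInstance, inferInstance, sp_sharp.1, sp_sharp.2.2⟩
    · exact ⟨le_rfl, Fin 4 ⊕ Fin 1, inferInstance, inferInstance, sp_five, balance_five⟩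

end Pool.Agent.X211.SPG
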